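import Pool.Agent.Helper22.HW.PriceAP
import Pool.Agent.Helper22.HW.Static
import Pool.Agent.Helper29.T4.Pin

/-!
# Random keys of one level and the union bound over tuples of hits with fresh keys

`Side p κ` : front, ranges, extensions and keys of the codes of one state.  The hash value of the
family `i` at `y` is `w (key i y)`.  `fresh_tuple`: the number of key assignments for which there
are `m + 1` hits with pairwise different initial parts (families of rank `< r0`) on both sides.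
-/

namespace Pool.Agent.Helper22.HW

open Finset Pool.Agent.Helper27.T4 Pool.Agent.Helper29.T4

/-- the parameters of one side -/
structure Side {ι : Type*} (p : ι → ℕ) (κ : Type*) where
  /-- front -/
  F : ℕ
  /-- ranges -/
  z : ι → ℕ
  /-- extensions -/
  e : ι → ℕ
  /-- keys -/
  key : ι → (ι → ℕ) → κ

variable {ι : Type*} [Fintype ι] [DecidableEq ι] {p : ι → ℕ} {κ : Type*} [DecidableEq κ]

/-- hash values -/
def Side.rho (S : Side p κ) (w : κ → ℕ) (i : ι) (y : ι → ℕ) : ZMod (p i ^ S.e i) :=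
  ((w (S.key i y) : ℕ) : ZMod (p i ^ S.e i))

/-- the code of one side -/
noncomputable def Side.cd (hp : ∀ i, (p i).Prime) (hinj : Function.Injective p) (S : Side p κ)
    (w : κ → ℕ) (y : ι → ℕ) : ℕ :=
  lc hp hinj S.F S.e (S.rho w) y

/-- requirements -/
structure Side.Ok (S : Side p κ) (rk : ι → ℕ) (Mk : κ → ℕ) : Prop where
  pos : 0 < S.F
  cop : ∀ i, S.F.Coprime (p i)
  ze : ∀ i, S.z i ≤ S.e i
  dep : ∀ i y y', (∀ j, rk j < rk i → y j = y' j) → S.key i y = S.key i y'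
  inj : ∀ i i' y y', S.key i y = S.key i' y' → i = i' ∧ ∀ j, rk j < rk i → y j = y' j
  size : ∀ i y, Mk (S.key i y) = p i ^ S.e i

omit [Fintype ι] [DecidableEq ι] [DecidableEq κ] in
theorem Side.Ok.rho_dep {S : Side p κ} {rk : ι → ℕ} {Mk : κ → ℕ} (h : S.Ok rk Mk) (w : κ → ℕ)
    (i : ι) (x y : ι → ℕ) (hxy : ∀ j, rk j < rk i → x j = y j) : S.rho w i x = S.rho w i y := by
  rw [Side.rho, Side.rho, h.dep i x y hxy]

/-- the fresh families -/
def fam (rk : ι → ℕ) (r0 : ℕ) : Finset ι := univ.filter (fun i => r0 ≤ rk i)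

/-- the fresh keys of one side -/
def Side.fk (S : Side p κ) (R : Finset ι) (y : ι → ℕ) : Finset κ := R.image (fun i => S.key i y)

omit [DecidableEq ι] in
/-- different initial parts give disjoint sets of fresh keys -/
theorem Side.Ok.disjoint_fk {S : Side p κ} {rk : ι → ℕ} {Mk : κ → ℕ} (h : S.Ok rk Mk) (r0 : ℕ)
    (y y' : ι → ℕ) (hne : ∃ j, rk j < r0 ∧ y j ≠ y' j) :
    Disjoint (S.fk (fam rk r0) y) (S.fk (fam rk r0) y') := by
  rw [Finset.disjoint_left]
  intro k hk hk'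
  rw [Side.fk, mem_image] at hk hk'
  obtain ⟨i, hi, rfl⟩ := hk
  obtain ⟨i', hi', he⟩ := hk'
  obtain ⟨hii, hj⟩ := h.inj i' i y' y he
  subst hii
  obtain ⟨j, hj0, hjne⟩ := hne
  rw [fam, mem_filter] at hi
  exact hjne (hj j (lt_of_lt_of_le hj0 hi.2)).symm

omit [Fintype ι] [DecidableEq ι] in
theorem Side.Ok.prod_fk {S : Side p κ} {rk : ι → ℕ} {Mk : κ → ℕ} (h : S.Ok rk Mk) (R : Finset ι)
    (y : ι → ℕ) : ∏ k ∈ S.fk R y, ((Mk k : ℝ))⁻¹ = ((MM p S.e R : ℕ) : ℝ)⁻¹ := by
  rw [Side.fk, Finset.prod_image]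
  · rw [MM, Nat.cast_prod, ← Finset.prod_inv_distrib]
    refine Finset.prod_congr rfl (fun i _ => ?_)
    rw [h.size]
  · intro i _ i' _ hii
    exact (h.inj i i' y y hii).1

/-! ## the union bound -/

/-- the tuple bound for an arbitrary set of assignments -/
theorem tuple_bound_set {κ' : Type*} [Fintype κ'] [DecidableEq κ'] {δ : Type*} (M : κ' → ℕ)
    (hM : ∀ k, 0 < M k) (Y : Finset δ)
    (hit : δ → (κ' → ℕ) → Prop) (fk : δ → Finset κ') (vl : δ → κ' → ℕ)
    (hv : ∀ y ∈ Y, ∀ r ∈ Om M, hit y r → ∀ k ∈ fk y, r k = vl y k)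
    (Q : ℝ) (hQ : ∑ z ∈ Y, ∏ k ∈ fk z, ((M k : ℝ))⁻¹ ≤ Q) (m : ℕ) (B : Finset (κ' → ℕ))
    (hB : ∀ r ∈ B, r ∈ Om M ∧ ∃ T ⊆ Y, T.card = m + 1 ∧ (∀ y ∈ T, hit y r) ∧
        (∀ y ∈ T, ∀ z ∈ T, y ≠ z → Disjoint (fk y) (fk z))) :
    (B.card : ℝ) ≤ (Om M).card * (Y.card * Q ^ m) := by
  classical
  obtain ⟨cp, hcp⟩ : ∃ cp : δ → δ → Prop, ∀ a b, cp a b := ⟨fun _ _ => True, fun _ _ => trivial⟩
  have hQ' : ∀ y ∈ Y, ∑ z ∈ Y.filter (cp y), ∏ k ∈ fk z, ((M k : ℝ))⁻¹ ≤ Q := by
    intro y _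
    rw [Finset.filter_true_of_mem (fun z _ => hcp y z)]
    exact hQ
  have hb := tuple_bound_w M hM Y hit fk vl hv cp Q hQ' m
  refine le_trans (Nat.cast_le.mpr (card_le_card (fun r hr => ?_))) hb
  obtain ⟨h1, T, hT, hc, hh, hd⟩ := hB r hr
  exact (@Finset.mem_filter _ _ _ _ _).2 ⟨h1, T, hT, hc, hh, fun _ _ _ _ => hcp _ _, hd⟩

/-- random keys in `K1`, fixed keys outside -/
def comb (K1 : Finset κ) (w0 : κ → ℕ) (ω : K1 → ℕ) : κ → ℕ :=
  fun k => if h : k ∈ K1 then ω ⟨k, h⟩ else w0 k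

theorem comb_mem {K1 : Finset κ} {w0 : κ → ℕ} {ω : K1 → ℕ} {k : κ} (h : k ∈ K1) :
    comb K1 w0 ω k = ω ⟨k, h⟩ := by
  rw [comb, dif_pos h]

/-- a candidate: index of the target, the two vectors, the two windows, the left code -/
abbrev Cnd (ι γ : Type*) : Type _ := γ × (((ι → ℕ) × (ι → ℕ)) × ((ℕ × ℕ) × ℕ))

/-- the candidate is a hit -/
def IsHit (hp : ∀ i, (p i).Prime) (hinj : Function.Injective p) {γ : Type*} (S S' : Side p κ)
    (X : γ → ℕ) (w : κ → ℕ) (t : Cnd ι γ) : Prop :=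
  S.cd hp hinj w t.2.1.1 = t.2.2.2 ∧
    S.cd hp hinj w t.2.1.1 + S'.cd hp hinj w t.2.1.2 + (t.2.2.1.1 + t.2.2.1.2) = X t.1

/-- the two vectors have different initial parts -/
def PreNe (rk : ι → ℕ) (r0 : ℕ) (y y' : ι → ℕ) : Prop := ∃ j, rk j < r0 ∧ y j ≠ y' j

/-- the value of the fresh key of the family `i` if the code of `y` is `r` -/
noncomputable def kval (S : Side p κ) (y : ι → ℕ) (r : ℕ) (i : ι) : ℕ :=
  (((r : ℕ) : ZMod (p i ^ S.e i)) - Lg (p i) (S.e i) (y i)).val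

omit [DecidableEq ι] [DecidableEq κ] in
theorem key_value (hp : ∀ i, (p i).Prime) (hinj : Function.Injective p) {S : Side p κ}
    {rk : ι → ℕ} {Mk : κ → ℕ} (h : S.Ok rk Mk) (w : κ → ℕ) (y : ι → ℕ) (r : ℕ) (i : ι)
    (hw : w (S.key i y) < Mk (S.key i y)) (hr : S.cd hp hinj w y = r) :
    w (S.key i y) = kval S y r i := by
  have h1 := fc_cast hp hinj S.F h.cop S.e
    (fun i => Lg (p i) (S.e i) (y i) + S.rho w i y) i
  have h2 : ((r : ℕ) : ZMod (p i ^ S.e i)) = Lg (p i) (S.e i) (y i) + S.rho w i y := by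
    rw [← hr]
    exact h1
  rw [kval, h2, add_sub_cancel_left, Side.rho]
  rw [h.size] at hw
  exact (ZMod.val_natCast_of_lt hw).symm

omit [DecidableEq ι] in
open Classical in
/-- **The fresh tuple bound.**  `R` = families of rank `>= r0`.  If the number of candidates is at
most `Q` times the number of values of the fresh components of both sides, then the number of key
assignments with `m + 1` hits which have pairwise different initial parts on both sides is at most
`#Om * (#Cand * Q ^ m)`. -/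
theorem fresh_tuple (hp : ∀ i, (p i).Prime) (hinj : Function.Injective p) {γ : Type*}
    {S S' : Side p κ} {rk : ι → ℕ} {Mk : κ → ℕ} (hS : S.Ok rk Mk) (hS' : S'.Ok rk Mk)
    (hdisj : ∀ i y i' y', S.key i y ≠ S'.key i' y') (hMk : ∀ k, 0 < Mk k)
    (r0 : ℕ) (K1 : Finset κ) (w0 : κ → ℕ) (X : γ → ℕ) (Cand : Finset (Cnd ι γ))
    (hK : ∀ t ∈ Cand, ∀ i, r0 ≤ rk i → S.key i t.2.1.1 ∈ K1 ∧ S'.key i t.2.1.2 ∈ K1)
    (Q : ℝ) (hQ : (Cand.card : ℝ) ≤ Q * ((MM p S.e (fam rk r0) : ℝ) * MM p S'.e (fam rk r0)))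
    (m : ℕ) :
    (((Om (fun k : K1 => Mk k)).filter (fun ω => ∃ T ⊆ Cand, T.card = m + 1 ∧
        (∀ t ∈ T, IsHit hp hinj S S' X (comb K1 w0 ω) t) ∧
        (∀ t ∈ T, ∀ t' ∈ T, t ≠ t' → PreNe rk r0 t.2.1.1 t'.2.1.1 ∧
          PreNe rk r0 t.2.1.2 t'.2.1.2))).card : ℝ) ≤
      (Om (fun k : K1 => Mk k)).card * (Cand.card * Q ^ m) := by
  classical
  set R := fam rk r0 with hR
  -- fresh keys inside `K1`
  set fkt : Cnd ι γ → Finset K1 := fun t =>
    Finset.univ.filter (fun k : K1 => (k : κ) ∈ S.fk R t.2.1.1 ∪ S'.fk R t.2.1.2) with hfkt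
  -- the values
  set vl : Cnd ι γ → K1 → ℕ := fun t k =>
    if h : ∃ i, i ∈ R ∧ S.key i t.2.1.1 = (k : κ) then kval S t.2.1.1 t.2.2.2 h.choose
    else if h' : ∃ i, i ∈ R ∧ S'.key i t.2.1.2 = (k : κ) then
      kval S' t.2.1.2 (X t.1 - (t.2.2.1.1 + t.2.2.1.2) - t.2.2.2) h'.choose
    else 0 with hvl
  refine tuple_bound_set (fun k : K1 => Mk k) (fun k => hMk k) Cand
    (fun t ω => IsHit hp hinj S S' X (comb K1 w0 ω) t) fkt vl ?_ Q ?_ m _ ?_
  rotate_left 2
  · intro ω hω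
    rw [mem_filter] at hω
    obtain ⟨hω1, T, hT, hTc, hhit, hne⟩ := hω
    refine ⟨hω1, T, hT, hTc, hhit, ?_⟩
    intro t ht t' ht' htt
    obtain ⟨h1, h2⟩ := hne t ht t' ht' htt
    rw [Finset.disjoint_left]
    intro k hk hk'
    rw [hfkt] at hk hk'
    simp only [mem_filter, mem_univ, true_and, mem_union] at hk hk'
    have d1 := hS.disjoint_fk r0 _ _ h1
    have d2 := hS'.disjoint_fk r0 _ _ h2
    rcases hk with hk | hk <;> rcases hk' with hk' | hk'
    · exact (Finset.disjoint_left.1 d1 hk) hk'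
    · rw [Side.fk, mem_image] at hk hk'
      obtain ⟨i, _, hi⟩ := hk
      obtain ⟨i', _, hi'⟩ := hk'
      exact hdisj i _ i' _ (hi.trans hi'.symm)
    · rw [Side.fk, mem_image] at hk hk'
      obtain ⟨i, _, hi⟩ := hk
      obtain ⟨i', _, hi'⟩ := hk'
      exact hdisj i' _ i _ (hi'.trans hi.symm)
    · exact (Finset.disjoint_left.1 d2 hk) hk'
  · -- the values are forced
    intro t ht ω hω hhit k hk
    rw [hfkt] at hk
    simp only [mem_filter, mem_univ, true_and, mem_union] at hk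
    obtain ⟨hr, hsum⟩ := hhit
    have hωk : ω k < Mk k := by
      rw [Om, Fintype.mem_piFinset] at hω
      exact mem_range.1 (hω k)
    have hcomb : comb K1 w0 ω (k : κ) = ω k := comb_mem k.2
    by_cases h : ∃ i, i ∈ R ∧ S.key i t.2.1.1 = (k : κ)
    · simp only [hvl, dif_pos h]
      have hch := h.choose_spec
      have h3 := key_value hp hinj hS (comb K1 w0 ω) t.2.1.1 t.2.2.2 h.choose
        (by rw [hch.2, hcomb]; exact hωk) hr
      rw [hch.2, hcomb] at h3
      exact h3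
    · rcases hk with hk | hk
      · exfalso
        rw [Side.fk, mem_image] at hk
        exact h hk
      · have h' : ∃ i, i ∈ R ∧ S'.key i t.2.1.2 = (k : κ) := by
          rw [Side.fk, mem_image] at hk
          exact hk
        simp only [hvl, dif_neg h, dif_pos h']
        have hch := h'.choose_spec
        have hr' : S'.cd hp hinj (comb K1 w0 ω) t.2.1.2
            = X t.1 - (t.2.2.1.1 + t.2.2.1.2) - t.2.2.2 := by
          rw [← hsum, hr]; omega
        have h3 := key_value hp hinj hS' (comb K1 w0 ω) t.2.1.2 _ h'.choose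
          (by rw [hch.2, hcomb]; exact hωk) hr'
        rw [hch.2, hcomb] at h3
        exact h3
  · -- the weights
    have hMM : (0 : ℝ) < MM p S.e R := by exact_mod_cast MM_pos hp S.e R
    have hMM' : (0 : ℝ) < MM p S'.e R := by exact_mod_cast MM_pos hp S'.e R
    have hw : ∀ z ∈ Cand, ∏ k ∈ fkt z, ((Mk (k : κ) : ℝ))⁻¹
        = ((MM p S.e R : ℝ) * MM p S'.e R)⁻¹ := by
      intro z hz
      have h1 : ∏ k ∈ fkt z, ((Mk (k : κ) : ℝ))⁻¹
          = ∏ k ∈ S.fk R z.2.1.1 ∪ S'.fk R z.2.1.2, ((Mk k : ℝ))⁻¹ := by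
        rw [← Finset.prod_image (s := fkt z) (g := fun k : K1 => (k : κ))
          (f := fun k => ((Mk k : ℝ))⁻¹) (fun a _ b _ hab => Subtype.ext hab)]
        congr 1
        ext k
        rw [mem_image]
        constructor
        · rintro ⟨k', hk', rfl⟩
          rw [hfkt] at hk'
          simp only [mem_filter, mem_univ, true_and] at hk'
          exact hk'
        · intro hk
          have hkK : k ∈ K1 := by
            rw [mem_union, Side.fk, Side.fk, mem_image, mem_image] at hk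
            rcases hk with ⟨i, hi, rfl⟩ | ⟨i, hi, rfl⟩
            · rw [hR, fam, mem_filter] at hi
              exact (hK z hz i hi.2).1
            · rw [hR, fam, mem_filter] at hi
              exact (hK z hz i hi.2).2
          refine ⟨⟨k, hkK⟩, ?_, rfl⟩
          rw [hfkt]
          simp only [mem_filter, mem_univ, true_and]
          exact hk
      rw [h1, Finset.prod_union, hS.prod_fk, hS'.prod_fk, mul_inv]
      rw [Finset.disjoint_left]
      intro k hk hk'
      rw [Side.fk, mem_image] at hk hk'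
      obtain ⟨i, _, hi⟩ := hk
      obtain ⟨i', _, hi'⟩ := hk'
      exact hdisj i _ i' _ (hi.trans hi'.symm)
    rw [Finset.sum_congr rfl hw, Finset.sum_const, nsmul_eq_mul, ← div_eq_mul_inv,
      div_le_iff₀ (by positivity)]
    exact hQ

end Pool.Agent.Helper22.HW
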