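import Pool.Agent.Helper22.HW.Front
import Pool.Agent.Helper27.T4.Fresh

/-!
# The price of a hit

`pair_sum_card`: pairs of numbers below `A`, `A'` in fixed classes modulo `B`, `B'` with given sum.
`front_count`: pairs of residue vectors, fixed outside the fresh families `R`, `R'`, such that the
two codes (with fronts `M`, `M'`) have a given sum.
-/

namespace Pool.Agent.Helper22.HW

open Finset Pool.Agent.Helper27.T4

/-- numbers below `A` in one class modulo `L` -/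
theorem class_card {A L : ℕ} (F : Finset ℕ) (hF : ∀ x ∈ F, x < A)
    (h : ∀ x ∈ F, ∀ y ∈ F, x ≡ y [MOD L]) : F.card ≤ A / L + 1 := by
  have h1 : F.card ≤ (range (A / L + 1)).card := by
    apply Finset.card_le_card_of_injOn (fun x => x / L)
    · intro x hx
      rw [coe_range, Set.mem_Iio, Nat.lt_succ_iff]
      exact Nat.div_le_div_right (hF x hx).le
    · intro x hx y hy hxy
      have h2 : x % L = y % L := h x hx y hy
      have h3 : x / L = y / L := hxy
      calc x = L * (x / L) + x % L := (Nat.div_add_mod x L).symm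
        _ = L * (y / L) + y % L := by rw [h2, h3]
        _ = y := Nat.div_add_mod y L
  rwa [card_range] at h1

/-- pairs in fixed classes with a given sum -/
theorem pair_sum_card {A A' B B' T : ℕ} (hB : 0 < B) (hB' : 0 < B') (F : Finset (ℕ × ℕ))
    (hA : ∀ t ∈ F, t.1 < A ∧ t.2 < A' ∧ t.1 + t.2 = T)
    (h : ∀ t ∈ F, ∀ s ∈ F, t.1 ≡ s.1 [MOD B] ∧ t.2 ≡ s.2 [MOD B']) :
    F.card ≤ min A A' / Nat.lcm B B' + 1 := by
  have hL : 0 < Nat.lcm B B' := Nat.lcm_pos hB hB'
  have key : ∀ t ∈ F, ∀ s ∈ F, t.1 ≡ s.1 [MOD Nat.lcm B B'] ∧ t.2 ≡ s.2 [MOD Nat.lcm B B'] := by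
    intro t ht s hs
    obtain ⟨h1, h2⟩ := h t ht s hs
    obtain ⟨-, -, e1⟩ := hA t ht
    obtain ⟨-, -, e2⟩ := hA s hs
    have h3 : t.1 + t.2 = s.1 + s.2 := e1.trans e2.symm
    have h4 : t.1 ≡ s.1 [MOD B'] := by
      have h5 : t.1 + t.2 ≡ s.1 + t.2 [MOD B'] := by
        rw [h3]
        exact Nat.ModEq.add_left _ h2.symm
      exact Nat.ModEq.add_right_cancel' _ h5
    have h6 : t.2 ≡ s.2 [MOD B] := by
      have h7 : t.1 + t.2 ≡ t.1 + s.2 [MOD B] := by
        rw [h3]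
        exact Nat.ModEq.add_right _ h1.symm
      exact Nat.ModEq.add_left_cancel' _ h7
    have hl : ∀ x y : ℕ, x ≡ y [MOD B] → x ≡ y [MOD B'] → x ≡ y [MOD Nat.lcm B B'] := by
      intro x y h8 h9
      rcases le_total x y with hxy | hxy
      · rw [Nat.modEq_iff_dvd' hxy] at h8 h9 ⊢
        exact Nat.lcm_dvd h8 h9
      · have h8' := h8.symm
        have h9' := h9.symm
        apply Nat.ModEq.symm
        rw [Nat.modEq_iff_dvd' hxy] at h8' h9' ⊢
        exact Nat.lcm_dvd h8' h9'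
    exact ⟨hl _ _ h1 h4, hl _ _ h6 h2⟩
  have hc1 : F.card ≤ A / Nat.lcm B B' + 1 := by
    rw [← Finset.card_image_of_injOn (f := Prod.fst) (s := F) ?_]
    · apply class_card
      · intro x hx
        rw [mem_image] at hx
        obtain ⟨t, ht, rfl⟩ := hx
        exact (hA t ht).1
      · intro x hx y hy
        rw [mem_image] at hx hy
        obtain ⟨t, ht, rfl⟩ := hx
        obtain ⟨s, hs, rfl⟩ := hy
        exact (key t ht s hs).1
    · intro t ht s hs hts
      obtain ⟨-, -, e1⟩ := hA t ht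
      obtain ⟨-, -, e2⟩ := hA s hs
      refine Prod.ext hts ?_
      have : t.1 = s.1 := hts
      omega
  have hc2 : F.card ≤ A' / Nat.lcm B B' + 1 := by
    rw [← Finset.card_image_of_injOn (f := Prod.snd) (s := F) ?_]
    · apply class_card
      · intro x hx
        rw [mem_image] at hx
        obtain ⟨t, ht, rfl⟩ := hx
        exact (hA t ht).2.1
      · intro x hx y hy
        rw [mem_image] at hx hy
        obtain ⟨t, ht, rfl⟩ := hx
        obtain ⟨s, hs, rfl⟩ := hy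
        exact (key t ht s hs).2
    · intro t ht s hs hts
      obtain ⟨-, -, e1⟩ := hA t ht
      obtain ⟨-, -, e2⟩ := hA s hs
      have : t.2 = s.2 := hts
      exact Prod.ext (by omega) this
  rcases le_total A A' with h1 | h1
  · rwa [min_eq_left h1]
  · rwa [min_eq_right h1]

variable {ι : Type*} [Fintype ι] [DecidableEq ι] {p : ι → ℕ}

omit [DecidableEq ι] in
/-- the code determines the residues -/
theorem fc_injective (hp : ∀ i, (p i).Prime) (hinj : Function.Injective p) (M : ℕ)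
    (hM : ∀ i, M.Coprime (p i)) (a : ι → ℕ) : Function.Injective (fc hp hinj M a) := by
  intro x y h
  funext i
  rw [← fc_cast hp hinj M hM a x i, ← fc_cast hp hinj M hM a y i, h]

/-- two vectors which agree outside `R` have codes congruent modulo `M * NN (fx a R)` -/
theorem fc_congr (hp : ∀ i, (p i).Prime) (hinj : Function.Injective p) (M : ℕ)
    (hM : ∀ i, M.Coprime (p i)) (a : ι → ℕ) (R : Finset ι) (x y : ∀ i, ZMod (p i ^ a i))
    (h : ∀ i, i ∉ R → x i = y i) :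
    fc hp hinj M a x ≡ fc hp hinj M a y [MOD M * NN p (fx a R)] := by
  have hco : M.Coprime (NN p (fx a R)) := by
    rw [NN]
    exact Nat.Coprime.prod_right (fun i _ => Nat.Coprime.pow_right _ (hM i))
  refine (Nat.modEq_and_modEq_iff_modEq_mul hco).1 ⟨?_, ?_⟩
  · exact ((Nat.modEq_zero_iff_dvd).2 (dvd_fc hp hinj M a x)).trans
      ((Nat.modEq_zero_iff_dvd).2 (dvd_fc hp hinj M a y)).symm
  · rw [← ZMod.natCast_eq_natCast_iff, natCast_eq_iff hp hinj]
    intro i
    rw [ZMod.natCast_eq_natCast_iff]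
    by_cases hi : i ∈ R
    · have h0 : fx a R i = 0 := by simp [fx, hi]
      rw [h0, pow_zero]
      exact Nat.modEq_one
    · have h0 : fx a R i = a i := by simp [fx, hi]
      rw [h0, ← ZMod.natCast_eq_natCast_iff, fc_cast hp hinj M hM, fc_cast hp hinj M hM]
      exact h i hi

/-- **Price of a hit, counting form.** -/
theorem front_count (hp : ∀ i, (p i).Prime) (hinj : Function.Injective p) (M M' : ℕ)
    (hM0 : 0 < M) (hM0' : 0 < M')
    (hM : ∀ i, M.Coprime (p i)) (hM' : ∀ i, M'.Coprime (p i)) {a a' : ι → ℕ}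
    (R R' : Finset ι) (T : ℕ) (t : ∀ i, ZMod (p i ^ a i)) (t' : ∀ i, ZMod (p i ^ a' i))
    (S : Finset ((∀ i, ZMod (p i ^ a i)) × (∀ i, ZMod (p i ^ a' i))))
    (hS : ∀ q ∈ S, (∀ i, i ∉ R → q.1 i = t i) ∧ (∀ i, i ∉ R' → q.2 i = t' i) ∧
      fc hp hinj M a q.1 + fc hp hinj M' a' q.2 = T) :
    S.card ≤ min (M * NN p a) (M' * NN p a') /
      Nat.lcm (M * NN p (fx a R)) (M' * NN p (fx a' R')) + 1 := by
  classical
  rw [← Finset.card_image_of_injective (f := fun q : (∀ i, ZMod (p i ^ a i)) ×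
    (∀ i, ZMod (p i ^ a' i)) => (fc hp hinj M a q.1, fc hp hinj M' a' q.2)) S ?_]
  · apply pair_sum_card (T := T) (Nat.mul_pos hM0 (NN_pos hp _)) (Nat.mul_pos hM0' (NN_pos hp _))
    · intro x hx
      rw [mem_image] at hx
      obtain ⟨q, hq, rfl⟩ := hx
      exact ⟨fc_lt hp hinj M hM0 a _, fc_lt hp hinj M' hM0' a' _, (hS q hq).2.2⟩
    · intro x hx y hy
      rw [mem_image] at hx hy
      obtain ⟨q, hq, rfl⟩ := hx
      obtain ⟨s, hs, rfl⟩ := hy
      obtain ⟨a1, a2, -⟩ := hS q hq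
      obtain ⟨b1, b2, -⟩ := hS s hs
      exact ⟨fc_congr hp hinj M hM a R _ _ (fun i hi => (a1 i hi).trans (b1 i hi).symm),
        fc_congr hp hinj M' hM' a' R' _ _ (fun i hi => (a2 i hi).trans (b2 i hi).symm)⟩
  · intro q s hqs
    simp only [Prod.mk.injEq] at hqs
    exact Prod.ext (fc_injective hp hinj M hM a hqs.1) (fc_injective hp hinj M' hM' a' hqs.2)

/-- **Price of a hit, probability form**: `2 gcd(B, B') / max(A, A')`. -/
theorem front_prob (hp : ∀ i, (p i).Prime) (hinj : Function.Injective p) (M M' : ℕ)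
    (hM0 : 0 < M) (hM0' : 0 < M')
    (hM : ∀ i, M.Coprime (p i)) (hM' : ∀ i, M'.Coprime (p i)) {a a' : ι → ℕ}
    (R R' : Finset ι) (T : ℕ) (t : ∀ i, ZMod (p i ^ a i)) (t' : ∀ i, ZMod (p i ^ a' i))
    (S : Finset ((∀ i, ZMod (p i ^ a i)) × (∀ i, ZMod (p i ^ a' i))))
    (hS : ∀ q ∈ S, (∀ i, i ∉ R → q.1 i = t i) ∧ (∀ i, i ∉ R' → q.2 i = t' i) ∧
      fc hp hinj M a q.1 + fc hp hinj M' a' q.2 = T)
    (hlcm : Nat.lcm (M * NN p (fx a R)) (M' * NN p (fx a' R')) ≤
      min (M * NN p a) (M' * NN p a')) :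
    (S.card : ℝ) / ((MM p a R : ℝ) * MM p a' R') ≤
      2 * (Nat.gcd (M * NN p (fx a R)) (M' * NN p (fx a' R')) : ℝ) /
        max ((M * NN p a : ℕ) : ℝ) ((M' * NN p a' : ℕ) : ℝ) := by
  have h := front_count hp hinj M M' hM0 hM0' hM hM' R R' T t t' S hS
  set B := M * NN p (fx a R) with hB
  set B' := M' * NN p (fx a' R') with hB'
  set A := M * NN p a with hA
  set A' := M' * NN p a' with hA'
  have hB0 : 0 < B := Nat.mul_pos hM0 (NN_pos hp _)
  have hB0' : 0 < B' := Nat.mul_pos hM0' (NN_pos hp _)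
  have hA0 : 0 < A := Nat.mul_pos hM0 (NN_pos hp _)
  have hA0' : 0 < A' := Nat.mul_pos hM0' (NN_pos hp _)
  have hL0 : 0 < Nat.lcm B B' := Nat.lcm_pos hB0 hB0'
  have eA : A = B * MM p a R := by rw [hA, hB, mul_assoc, NN_fx_mul]
  have eA' : A' = B' * MM p a' R' := by rw [hA', hB', mul_assoc, NN_fx_mul]
  have hgl : Nat.gcd B B' * Nat.lcm B B' = B * B' := Nat.gcd_mul_lcm B B'
  have h1 : (S.card : ℝ) ≤ 2 * ((min A A' : ℕ) : ℝ) / (Nat.lcm B B' : ℝ) := by
    have hLr : (0 : ℝ) < (Nat.lcm B B' : ℝ) := by exact_mod_cast hL0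
    have h2 : (S.card : ℝ) ≤ ((min A A' / Nat.lcm B B' : ℕ) : ℝ) + 1 := by exact_mod_cast h
    have h3 : ((min A A' / Nat.lcm B B' : ℕ) : ℝ) ≤ ((min A A' : ℕ) : ℝ) / (Nat.lcm B B' : ℝ) :=
      Nat.cast_div_le
    have h4 : (1 : ℝ) ≤ ((min A A' : ℕ) : ℝ) / (Nat.lcm B B' : ℝ) := by
      rw [le_div_iff₀ hLr, one_mul]
      exact_mod_cast hlcm
    have h5 : 2 * ((min A A' : ℕ) : ℝ) / (Nat.lcm B B' : ℝ)
        = ((min A A' : ℕ) : ℝ) / (Nat.lcm B B' : ℝ)
          + ((min A A' : ℕ) : ℝ) / (Nat.lcm B B' : ℝ) := by ring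
    rw [h5]
    linarith
  have hMM : (0 : ℝ) < MM p a R := by exact_mod_cast MM_pos hp a R
  have hMM' : (0 : ℝ) < MM p a' R' := by exact_mod_cast MM_pos hp a' R'
  refine (div_le_div_of_nonneg_right h1 (by positivity)).trans (le_of_eq ?_)
  have hmm : ((min A A' : ℕ) : ℝ) * max (A : ℝ) (A' : ℝ) = (A : ℝ) * A' := by
    rcases le_total A A' with h6 | h6
    · rw [min_eq_left h6, max_eq_right (by exact_mod_cast h6)]
    · rw [min_eq_right h6, max_eq_left (by exact_mod_cast h6)]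
      ring
  have hgl' : (Nat.gcd B B' : ℝ) * (Nat.lcm B B' : ℝ) = (B : ℝ) * B' := by exact_mod_cast hgl
  have eAr : (A : ℝ) = B * MM p a R := by exact_mod_cast eA
  have eAr' : (A' : ℝ) = B' * MM p a' R' := by exact_mod_cast eA'
  have hmax : (0 : ℝ) < max (A : ℝ) (A' : ℝ) := lt_max_of_lt_left (by exact_mod_cast hA0)
  have hLr : (0 : ℝ) < (Nat.lcm B B' : ℝ) := by exact_mod_cast hL0
  have hBr : (0 : ℝ) < (B : ℝ) := by exact_mod_cast hB0
  have hBr' : (0 : ℝ) < (B' : ℝ) := by exact_mod_cast hB0'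
  rw [div_div, div_eq_div_iff (by positivity) hmax.ne']
  calc 2 * ((min A A' : ℕ) : ℝ) * max (A : ℝ) (A' : ℝ)
      = 2 * (((min A A' : ℕ) : ℝ) * max (A : ℝ) (A' : ℝ)) := by ring
    _ = 2 * ((B * MM p a R) * (B' * MM p a' R')) := by rw [hmm, eAr, eAr']
    _ = 2 * ((B : ℝ) * B') * (MM p a R * MM p a' R') := by ring
    _ = 2 * ((Nat.gcd B B' : ℝ) * (Nat.lcm B B' : ℝ)) * (MM p a R * MM p a' R') := by rw [hgl']
    _ = _ := by ring

end Pool.Agent.Helper22.HW
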