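import Pool.Agent.Helper27.T4.Crt
import Pool.Agent.Helper27.T4.Ind3

/-!
# Codes with an alignment front (levels >= 2 of the hierarchical windows)

`fc M a r` is the number in `[0, M * NN p a)` which is divisible by `M` and has the residues `r i`
modulo `p i ^ a i`.  The main theorem `fc_label`: if two such vectors have a sum whose components
are fixed, except that the component `g` is `h + p^b * (s * j)`, then the sum of the two numbers is
`M * (R + NN p b * ((α + E * j) % D + κ * D))` with `R, α, E` independent of `j`.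
-/

namespace Pool.Agent.Helper22.HW

open Finset Pool.Agent.Helper27.T4

variable {ι : Type*} [Fintype ι] {p : ι → ℕ} (hp : ∀ i, (p i).Prime)
  (hinj : Function.Injective p)

/-- code with front -/
noncomputable def fc (M : ℕ) (a : ι → ℕ) (r : ∀ i, ZMod (p i ^ a i)) : ℕ :=
  M * cv hp hinj a (fun i => ((M : ℕ) : ZMod (p i ^ a i))⁻¹ * r i)

theorem fc_lt (M : ℕ) (hM : 0 < M) (a : ι → ℕ) (r : ∀ i, ZMod (p i ^ a i)) :
    fc hp hinj M a r < M * NN p a :=
  Nat.mul_lt_mul_of_pos_left (cv_lt hp hinj a _) hM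

theorem dvd_fc (M : ℕ) (a : ι → ℕ) (r : ∀ i, ZMod (p i ^ a i)) : M ∣ fc hp hinj M a r :=
  dvd_mul_right _ _

theorem fc_cast (M : ℕ) (hM : ∀ i, M.Coprime (p i)) (a : ι → ℕ) (r : ∀ i, ZMod (p i ^ a i))
    (i : ι) : ((fc hp hinj M a r : ℕ) : ZMod (p i ^ a i)) = r i := by
  rw [fc, Nat.cast_mul, cv_cast_comp hp hinj, ← mul_assoc,
    ZMod.coe_mul_inv_eq_one M (Nat.Coprime.pow_right _ (hM i)), one_mul]

include hp hinj in
/-- a number is determined by its residues -/
theorem eq_of_casts {M : ℕ} (hM : ∀ i, M.Coprime (p i)) (a : ι → ℕ) {x y : ℕ}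
    (hx : x < M * NN p a) (hy : y < M * NN p a) (hxM : M ∣ x) (hyM : M ∣ y)
    (h : ∀ i, (x : ZMod (p i ^ a i)) = y) : x = y := by
  have h1 : x ≡ y [MOD NN p a] := by
    rw [← ZMod.natCast_eq_natCast_iff, natCast_eq_iff hp hinj]
    exact h
  have h2 : x ≡ y [MOD M] :=
    ((Nat.modEq_zero_iff_dvd).2 hxM).trans ((Nat.modEq_zero_iff_dvd).2 hyM).symm
  have hco : M.Coprime (NN p a) := by
    rw [NN]
    exact Nat.Coprime.prod_right (fun i _ => Nat.Coprime.pow_right _ (hM i))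
  have h3 := (Nat.modEq_and_modEq_iff_modEq_mul hco).1 ⟨h2, h1⟩
  rw [Nat.ModEq, Nat.mod_eq_of_lt hx, Nat.mod_eq_of_lt hy] at h3
  exact h3

/-- sum of two values of `cv` -/
theorem cv_add (a : ι → ℕ) (x y : ∀ i, ZMod (p i ^ a i)) :
    ∃ κ < 2, cv hp hinj a x + cv hp hinj a y
      = cv hp hinj a (fun i => x i + y i) + κ * NN p a := by
  have h1 : (cv hp hinj a x + cv hp hinj a y) % NN p a = cv hp hinj a (fun i => x i + y i) := by
    have h2 : ((cv hp hinj a x + cv hp hinj a y : ℕ) : ZMod (NN p a)) =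
        ((cv hp hinj a (fun i => x i + y i) : ℕ) : ZMod (NN p a)) := by
      rw [cv_cast, cc_add, Nat.cast_add, cv_cast, cv_cast]
    rw [ZMod.natCast_eq_natCast_iff, Nat.ModEq, Nat.mod_eq_of_lt (cv_lt hp hinj a _)] at h2
    exact h2
  refine ⟨(cv hp hinj a x + cv hp hinj a y) / NN p a, ?_, ?_⟩
  · rw [Nat.div_lt_iff_lt_mul (NN_pos hp a)]
    have := cv_lt hp hinj a x
    have := cv_lt hp hinj a y
    omega
  · rw [← h1, mul_comm _ (NN p a)]
    exact (Nat.mod_add_div _ _).symm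

/-- sum of two codes with the same front -/
theorem fc_add (M : ℕ) (a : ι → ℕ) (x y : ∀ i, ZMod (p i ^ a i)) :
    ∃ κ < 2, fc hp hinj M a x + fc hp hinj M a y
      = fc hp hinj M a (fun i => x i + y i) + κ * (M * NN p a) := by
  obtain ⟨κ, hκ, h⟩ := cv_add hp hinj a (fun i => ((M : ℕ) : ZMod (p i ^ a i))⁻¹ * x i)
    (fun i => ((M : ℕ) : ZMod (p i ^ a i))⁻¹ * y i)
  refine ⟨κ, hκ, ?_⟩
  rw [fc, fc, fc, ← mul_add, h]
  have : (fun i => ((M : ℕ) : ZMod (p i ^ a i))⁻¹ * (x i + y i))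
      = (fun i => ((M : ℕ) : ZMod (p i ^ a i))⁻¹ * x i
        + ((M : ℕ) : ZMod (p i ^ a i))⁻¹ * y i) := by
    funext i; ring
  rw [this]
  ring

open Classical in
/-- the labelled form of a code whose component `g` moves -/
theorem fc_single (M : ℕ) (hM : ∀ i, M.Coprime (p i)) {a b : ι → ℕ} (g : ι)
    (hg : ∀ i, i ≠ g → b i = a i) (hba : b g ≤ a g) (ha : 0 < a g) (s : ℕ)
    (hs : s.Coprime (p g)) :
    ∃ E : ℕ, E.Coprime (p g) ∧ ∀ (w : ∀ i, ZMod (p i ^ a i)), ∃ R < NN p b, ∃ α, ∀ j : ℕ,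
      fc hp hinj M a (Function.update w g (w g + ((p g ^ b g * (s * j) : ℕ) : ZMod (p g ^ a g))))
        = M * (R + NN p b * ((α + E * j) % (p g ^ (a g - b g)))) := by
  -- replace `s` by `s / M`
  have hco : M.Coprime (p g ^ a g) := Nat.Coprime.pow_right _ (hM g)
  have hne : NeZero (p g ^ a g) := ⟨(pow_pos (hp g).pos _).ne'⟩
  set s' : ℕ := (((M : ℕ) : ZMod (p g ^ a g))⁻¹ * (s : ZMod (p g ^ a g))).val with hs'
  have hs'c : ((s' : ℕ) : ZMod (p g ^ a g)) = ((M : ℕ) : ZMod (p g ^ a g))⁻¹ * s := by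
    rw [hs', ZMod.natCast_zmod_val]
  have hs'u : s'.Coprime (p g) := by
    have h1 : ((M * s' : ℕ) : ZMod (p g ^ a g)) = s := by
      rw [Nat.cast_mul, hs'c, ← mul_assoc, ZMod.coe_mul_inv_eq_one M hco, one_mul]
    have h2 : (M * s') ≡ s [MOD p g] := by
      have h3 := (ZMod.natCast_eq_natCast_iff _ _ _).1 h1
      exact h3.of_dvd (dvd_pow_self _ ha.ne')
    have h4 : (M * s').Coprime (p g) := by
      rw [Nat.coprime_iff_gcd_eq_one, Nat.ModEq.gcd_eq h2]
      exact hs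
    exact Nat.Coprime.coprime_mul_left h4
  obtain ⟨E, hE, hsing⟩ := exists_single hp hinj (a := a) (b := b) g hg s'
  refine ⟨E, hE hs'u, ?_⟩
  intro w
  set w₀ : ∀ i, ZMod (p i ^ a i) := fun i => ((M : ℕ) : ZMod (p i ^ a i))⁻¹ * w i with hw₀
  have hNb := NN_pos hp b
  refine ⟨cv hp hinj a w₀ % NN p b, Nat.mod_lt _ hNb, cv hp hinj a w₀ / NN p b, ?_⟩
  intro j
  have hupd : (fun i => ((M : ℕ) : ZMod (p i ^ a i))⁻¹ * (Function.update w g
      (w g + ((p g ^ b g * (s * j) : ℕ) : ZMod (p g ^ a g)))) i)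
      = Function.update w₀ g (w₀ g + ((p g ^ b g * (s' * j) : ℕ) : ZMod (p g ^ a g))) := by
    funext i
    by_cases hi : i = g
    · subst hi
      rw [Function.update_self, Function.update_self, hw₀]
      simp only
      push_cast
      rw [hs'c]
      ring
    · rw [Function.update_of_ne hi, Function.update_of_ne hi]
  rw [fc, hupd]
  congr 1
  -- the value of `cv`
  have hD : NN p a = NN p b * p g ^ (a g - b g) := by
    rw [NN, NN, ← Finset.mul_prod_erase Finset.univ (fun i => p i ^ a i) (Finset.mem_univ g),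
      ← Finset.mul_prod_erase Finset.univ (fun i => p i ^ b i) (Finset.mem_univ g)]
    have h1 : ∏ i ∈ Finset.univ.erase g, p i ^ a i = ∏ i ∈ Finset.univ.erase g, p i ^ b i :=
      Finset.prod_congr rfl (fun i hi => by rw [hg i (Finset.ne_of_mem_erase hi)])
    have h2 : p g ^ a g = p g ^ b g * p g ^ (a g - b g) := by
      rw [← pow_add]; congr 1; omega
    rw [h1, h2]
    ring
  have h5 := hsing w₀ j
  have h6 : cv hp hinj a (Function.update w₀ g
      (w₀ g + ((p g ^ b g * (s' * j) : ℕ) : ZMod (p g ^ a g))))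
      = (cv hp hinj a w₀ + NN p b * (E * j)) % NN p a := by
    have h7 : ((cv hp hinj a (Function.update w₀ g
        (w₀ g + ((p g ^ b g * (s' * j) : ℕ) : ZMod (p g ^ a g)))) : ℕ) : ZMod (NN p a))
        = ((cv hp hinj a w₀ + NN p b * (E * j) : ℕ) : ZMod (NN p a)) := by
      rw [cv_cast, h5, Nat.cast_add, cv_cast]
    rw [ZMod.natCast_eq_natCast_iff, Nat.ModEq, Nat.mod_eq_of_lt (cv_lt hp hinj a _)] at h7
    exact h7
  rw [h6]
  have h8 : cv hp hinj a w₀ + NN p b * (E * j)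
      = cv hp hinj a w₀ % NN p b + NN p b * (cv hp hinj a w₀ / NN p b + E * j) := by
    have := Nat.mod_add_div (cv hp hinj a w₀) (NN p b)
    calc cv hp hinj a w₀ + NN p b * (E * j)
        = (cv hp hinj a w₀ % NN p b + NN p b * (cv hp hinj a w₀ / NN p b))
          + NN p b * (E * j) := by rw [this]
      _ = _ := by ring
  rw [h8, hD]
  have h9 : cv hp hinj a w₀ % NN p b < NN p b := Nat.mod_lt _ hNb
  rw [Nat.add_comm (cv hp hinj a w₀ % NN p b), Nat.add_comm (cv hp hinj a w₀ % NN p b)]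
  rw [Nat.mod_mul, Nat.mul_add_mod, Nat.mod_eq_of_lt h9, Nat.mul_add_div hNb,
    Nat.div_eq_of_lt h9, Nat.add_zero]
  ring

end Pool.Agent.Helper22.HW
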