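import Pool.Agent.Helper22.HW.Closure
import Pool.Agent.Helper22.HW.Front
import Pool.Agent.Helper3.T4.Decode

/-!
# The breathing jump

Two codes with the same front and the same extension, whose ranges differ only in the family `g`.
If the windows have the local property `N2` for the digits of the family `g`, then the coded sets
have the fixed target property `N1`.
-/

namespace Pool.Agent.Helper22.HW

open Finset Pool.Agent.Helper27.T4 Pool.Agent.Helper3.T4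

variable {ι : Type*} [Fintype ι] [DecidableEq ι] {p : ι → ℕ}

/-- the code of a level -/
noncomputable def lc (hp : ∀ i, (p i).Prime) (hinj : Function.Injective p) (M : ℕ) (e : ι → ℕ)
    (ρ : ∀ i, (ι → ℕ) → ZMod (p i ^ e i)) (y : ι → ℕ) : ℕ :=
  fc hp hinj M e (fun i => Lg (p i) (e i) (y i) + ρ i y)

/-- the decoding label: pairs of low rank and the residue of the product of the family `g` -/
def Phi (rk : ι → ℕ) (g : ι) (P : ℕ) (w : ι → ℕ × ℕ) : ι → ℕ × ℕ :=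
  fun i => if rk i < rk g then w i else if i = g then (((w g).1 * (w g).2) % P, 0) else (0, 0)

omit [DecidableEq ι] in
/-- the reduction of a component of the code -/
theorem lc_cast (hp : ∀ i, (p i).Prime) (hp2 : ∀ i, p i ≠ 2) (hinj : Function.Injective p)
    (M : ℕ) (hM : ∀ i, M.Coprime (p i)) (e b : ι → ℕ) (hbe : ∀ i, b i ≤ e i)
    (ρ : ∀ i, (ι → ℕ) → ZMod (p i ^ e i)) (y : ι → ℕ) (i : ι) (hy : (y i).Coprime (p i)) :
    ((lc hp hinj M e ρ y : ℕ) : ZMod (p i ^ b i)) = Lg (p i) (b i) (y i) +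
      ZMod.castHom (pow_dvd_pow (p i) (hbe i)) (ZMod (p i ^ b i)) (ρ i y) := by
  have h := congrArg (ZMod.castHom (pow_dvd_pow (p i) (hbe i)) (ZMod (p i ^ b i)))
    (fc_cast hp hinj M hM e (fun i => Lg (p i) (e i) (y i) + ρ i y) i)
  rw [map_natCast, map_add, Lg_red (hp i) (hp2 i) _ _ _ hy (hbe i)] at h
  exact h

/-- number of labels -/
theorem card_Phi_le (hp : ∀ i, (p i).Prime) (hp2 : ∀ i, p i ≠ 2) (b : ι → ℕ)
    (rk : ι → ℕ) (g : ι) (ρ ρ' : ∀ i, (ι → ℕ) → ZMod (p i ^ b i))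
    (hρ : ∀ i x y, (∀ j, rk j < rk i → x j = y j) → ρ i x = ρ i y)
    (hρ' : ∀ i x y, (∀ j, rk j < rk i → x j = y j) → ρ' i x = ρ' i y)
    (c : ∀ i, ZMod (p i ^ b i)) (S : Finset (ι → ℕ × ℕ))
    (hS : ∀ w ∈ S, ∀ i, (w i).1.Prime ∧ (w i).2.Prime ∧ (w i).1.Coprime (p i) ∧
      (w i).2.Coprime (p i) ∧ (i ≠ g → (w i).1 * (w i).2 < p i ^ (b i + 1)) ∧
      (Lg (p i) (b i) (w i).1 + ρ i (fun j => (w j).1)) +
        (Lg (p i) (b i) (w i).2 + ρ' i (fun j => (w j).2)) = c i) :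
    (S.image (Phi rk g (p g ^ (b g + 1)))).card ≤ ∏ i, (2 * (p i - 1)) := by
  classical
  refine card_le_prod_of_rank rk _ _ ?_
  intro f θ hθ
  rw [mem_image] at hθ
  obtain ⟨w, hw, rfl⟩ := hθ
  have hpf : 2 ≤ p f := (hp f).two_le
  by_cases h1 : rk f < rk g
  · -- a family of low rank
    refine card_pairs_quot (hp f) (hp2 f) (b f) 0
      (c f - ρ f (fun j => (w j).1) - ρ' f (fun j => (w j).2)) _ ?_
    intro t ht
    rw [mem_image] at ht
    obtain ⟨θ', hθ', rfl⟩ := ht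
    rw [mem_filter, mem_image] at hθ'
    obtain ⟨⟨w', hw', rfl⟩, hag⟩ := hθ'
    have hag' : ∀ j, rk j < rk f → w' j = w j := by
      intro j hj
      have := hag j hj
      simp only [Phi, if_pos (hj.trans h1)] at this
      exact this
    obtain ⟨a1, a2, a3, a4, a5, a6⟩ := hS w' hw' f
    have hfg : f ≠ g := by rintro rfl; exact lt_irrefl _ h1
    simp only [Phi, if_pos h1]
    refine ⟨a1, a2, a3, a4, Nat.div_eq_of_lt (a5 hfg), ?_⟩
    rw [← a6, hρ f (fun j => (w' j).1) (fun j => (w j).1) (fun j hj => by rw [hag' j hj]),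
      hρ' f (fun j => (w' j).2) (fun j => (w j).2) (fun j hj => by rw [hag' j hj])]
    ring
  · by_cases h2 : f = g
    · subst h2
      have h3 := card_Lg_le (hp f) (hp2 f) (b f)
        (c f - ρ f (fun j => (w j).1) - ρ' f (fun j => (w j).2))
      refine le_trans (le_trans (card_le_card_of_injOn (fun t : ℕ × ℕ => t.1) ?_ ?_) h3) (by omega)
      · intro t ht
        simp only [coe_image, coe_filter, mem_image, Set.mem_image, Set.mem_ofPred_eq] at ht
        obtain ⟨θ', ⟨⟨w', hw', rfl⟩, hag⟩, rfl⟩ := ht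
        have hag' : ∀ j, rk j < rk f → w' j = w j := by
          intro j hj
          have := hag j hj
          simp only [Phi, if_pos hj] at this
          exact this
        obtain ⟨a1, a2, a3, a4, a5, a6⟩ := hS w' hw' f
        simp only [Phi, lt_irrefl, if_false, if_true, coe_filter, mem_range, Set.mem_ofPred_eq]
        refine ⟨Nat.mod_lt _ (pow_pos (hp f).pos _), ?_, ?_⟩
        · exact mod_coprime _ _ (Nat.Coprime.mul_left a3 a4)
        · rw [Lg_mod, Lg_mul (hp f) (hp2 f) _ _ _ a3 a4, ← a6,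
            hρ f (fun j => (w' j).1) (fun j => (w j).1) (fun j hj => by rw [hag' j hj]),
            hρ' f (fun j => (w' j).2) (fun j => (w j).2) (fun j hj => by rw [hag' j hj])]
          ring
      · intro t ht t' ht' htt
        simp only [coe_image, coe_filter, mem_image, Set.mem_image, Set.mem_ofPred_eq] at ht ht'
        obtain ⟨θ', ⟨⟨w', hw', rfl⟩, hag⟩, rfl⟩ := ht
        obtain ⟨θ'', ⟨⟨w'', hw'', rfl⟩, hag2⟩, rfl⟩ := ht'
        simp only [Phi, lt_irrefl, if_false, if_true] at htt ⊢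
        rw [htt]
    · refine le_trans (card_le_one.2 ?_) (by omega : 1 ≤ 2 * (p f - 1))
      intro t ht t' ht'
      rw [mem_image] at ht ht'
      obtain ⟨θ', hθ', rfl⟩ := ht
      obtain ⟨θ'', hθ'', rfl⟩ := ht'
      rw [mem_filter, mem_image] at hθ' hθ''
      obtain ⟨⟨w', hw', rfl⟩, -⟩ := hθ'
      obtain ⟨⟨w'', hw'', rfl⟩, -⟩ := hθ''
      simp only [Phi, if_neg h1, if_neg h2]

/-- the pair of vectors as a vector of pairs -/
def zp (y y' : ι → ℕ) : ι → ℕ × ℕ := fun i => (y i, y' i)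

theorem NN_split (p e b : ι → ℕ) (g : ι) (hg : ∀ i, i ≠ g → b i = e i) (hbe : b g ≤ e g) :
    NN p e = NN p b * p g ^ (e g - b g) := by
  rw [NN, NN, ← Finset.mul_prod_erase Finset.univ (fun i => p i ^ e i) (Finset.mem_univ g),
    ← Finset.mul_prod_erase Finset.univ (fun i => p i ^ b i) (Finset.mem_univ g)]
  have h1 : ∏ i ∈ Finset.univ.erase g, p i ^ e i = ∏ i ∈ Finset.univ.erase g, p i ^ b i :=
    Finset.prod_congr rfl (fun i hi => by rw [hg i (Finset.ne_of_mem_erase hi)])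
  have h2 : p g ^ e g = p g ^ b g * p g ^ (e g - b g) := by
    rw [← pow_add]; congr 1; omega
  rw [h1, h2]
  ring

/-- the sum of two codes in terms of the label -/
theorem label_exists (hp : ∀ i, (p i).Prime) (hp2 : ∀ i, p i ≠ 2) (hinj : Function.Injective p)
    (M : ℕ) (hM : ∀ i, M.Coprime (p i)) (rk : ι → ℕ) (g : ι) (e b : ι → ℕ)
    (hg : ∀ i, i ≠ g → b i = e i) (hbe : b g ≤ e g) (hbe2 : e g ≤ 2 * b g + 1) (he0 : 0 < e g)
    (ρ ρ' : ∀ i, (ι → ℕ) → ZMod (p i ^ e i))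
    (hρ : ∀ x y, (∀ j, rk j < rk g → x j = y j) → ρ g x = ρ g y)
    (hρ' : ∀ x y, (∀ j, rk j < rk g → x j = y j) → ρ' g x = ρ' g y)
    (n : ℕ) (y₀ y₀' : ι → ℕ) (hc₀ : (y₀ g).Coprime (p g)) (hc₀' : (y₀' g).Coprime (p g)) :
    ∃ R α E : ℕ, E.Coprime (p g) ∧ ∀ y y' : ι → ℕ, (y g).Coprime (p g) → (y' g).Coprime (p g) →
      (∀ i, (lc hp hinj M e ρ y + lc hp hinj M e ρ' y') ≡ n [MOD p i ^ b i]) →
      Phi rk g (p g ^ (b g + 1)) (zp y y') = Phi rk g (p g ^ (b g + 1)) (zp y₀ y₀') →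
      ∃ κ < 2, lc hp hinj M e ρ y + lc hp hinj M e ρ' y' = M * R +
        M * NN p b * ((α + E * ((y g * y' g) / p g ^ (b g + 1))) % p g ^ (e g - b g)
          + κ * p g ^ (e g - b g)) := by
  classical
  set P₀ := (y₀ g * y₀' g) % p g ^ (b g + 1) with hP₀
  have hP₀c : P₀.Coprime (p g) := mod_coprime _ _ (Nat.Coprime.mul_left hc₀ hc₀')
  obtain ⟨β, hβ, hgrow⟩ := grow (hp g) (hp2 g) (e g) (b g) P₀ hP₀c hbe2
  obtain ⟨E, hE, hsing⟩ := fc_single hp hinj M hM (a := e) (b := b) g hg hbe he0 β hβ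
  obtain ⟨R, hR, α, hform⟩ := hsing (Function.update (fun i => ((n : ℕ) : ZMod (p i ^ e i))) g
    (Lg (p g) (e g) P₀ + ρ g y₀ + ρ' g y₀'))
  refine ⟨R, α, E, hE, ?_⟩
  intro y y' hc hc' hres hPhi
  -- the label agrees
  have hlow : ∀ j, rk j < rk g → y j = y₀ j ∧ y' j = y₀' j := by
    intro j hj
    have h := congrFun hPhi j
    simp only [Phi, if_pos hj, zp, Prod.mk.injEq] at h
    exact h
  have hPP : (y g * y' g) % p g ^ (b g + 1) = P₀ := by
    have h := congrFun hPhi g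
    simp only [Phi, lt_irrefl, if_false, if_true, zp, Prod.mk.injEq] at h
    exact h.1
  set j := (y g * y' g) / p g ^ (b g + 1) with hj
  have hprod : y g * y' g = P₀ + j * p g ^ (b g + 1) := by
    rw [← hPP, hj, mul_comm (_ / _)]
    exact (Nat.mod_add_div _ _).symm
  have hLg : Lg (p g) (e g) (y g) + Lg (p g) (e g) (y' g)
      = Lg (p g) (e g) P₀ + ((p g ^ b g * (β * j) : ℕ) : ZMod (p g ^ e g)) := by
    rw [← Lg_mul (hp g) (hp2 g) _ _ _ hc hc', hprod, hgrow]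
  obtain ⟨κ, hκ, hadd⟩ := fc_add hp hinj M e (fun i => Lg (p i) (e i) (y i) + ρ i y)
    (fun i => Lg (p i) (e i) (y' i) + ρ' i y')
  refine ⟨κ, hκ, ?_⟩
  have hvec : (fun i => (Lg (p i) (e i) (y i) + ρ i y) + (Lg (p i) (e i) (y' i) + ρ' i y'))
      = Function.update (Function.update (fun i => ((n : ℕ) : ZMod (p i ^ e i))) g
        (Lg (p g) (e g) P₀ + ρ g y₀ + ρ' g y₀')) g
        ((Function.update (fun i => ((n : ℕ) : ZMod (p i ^ e i))) g
        (Lg (p g) (e g) P₀ + ρ g y₀ + ρ' g y₀')) g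
          + ((p g ^ b g * (β * j) : ℕ) : ZMod (p g ^ e g))) := by
    funext i
    by_cases hi : i = g
    · subst hi
      rw [Function.update_self, Function.update_self, hρ y y₀ (fun j hj => (hlow j hj).1),
        hρ' y' y₀' (fun j hj => (hlow j hj).2)]
      have := hLg
      linear_combination this
    · rw [Function.update_of_ne hi, Function.update_of_ne hi]
      have h1 := hres i
      rw [hg i hi] at h1
      have h2 := (ZMod.natCast_eq_natCast_iff _ _ _).2 h1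
      rw [Nat.cast_add, lc, lc, fc_cast hp hinj M hM, fc_cast hp hinj M hM] at h2
      exact h2
  have hform' : fc hp hinj M e (Function.update (Function.update
      (fun i => ((n : ℕ) : ZMod (p i ^ e i))) g (Lg (p g) (e g) P₀ + ρ g y₀ + ρ' g y₀')) g
      ((Function.update (fun i => ((n : ℕ) : ZMod (p i ^ e i))) g
      (Lg (p g) (e g) P₀ + ρ g y₀ + ρ' g y₀')) g
        + ((p g ^ b g * (β * j) : ℕ) : ZMod (p g ^ e g))))
      = M * (R + NN p b * ((α + E * j) % (p g ^ (e g - b g)))) := by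
    have hd : (fun a b : ι => Classical.propDecidable (a = b)) = ‹DecidableEq ι› :=
      Subsingleton.elim _ _
    have h := hform j
    rw [hd] at h
    exact h
  rw [hvec, hform'] at hadd
  rw [lc, lc, hadd, NN_split p e b g hg hbe]
  ring

/-- admissible vectors of primes with the range exponents `z` -/
def Adm (p z : ι → ℕ) (Y : Finset (ι → ℕ)) : Prop :=
  ∀ y ∈ Y, ∀ i, (y i).Prime ∧ (y i).Coprime (p i) ∧ y i ^ 2 < p i ^ z i

omit [Fintype ι] [DecidableEq ι] in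
theorem prod_lt_of_adm (hp : ∀ i, (p i).Prime) {z z' : ι → ℕ} {Y Y' : Finset (ι → ℕ)}
    (hY : Adm p z Y) (hY' : Adm p z' Y') {y y' : ι → ℕ} (hy : y ∈ Y) (hy' : y' ∈ Y') (i : ι) :
    (y i * y' i) / p i ^ (min (z i) (z' i) + 1)
      < p i ^ ((max (z i) (z' i) - min (z i) (z' i)) / 2) := by
  obtain ⟨-, -, h1⟩ := hY y hy i
  obtain ⟨-, -, h2⟩ := hY' y' hy' i
  rcases le_total (z i) (z' i) with h | h
  · rw [min_eq_left h, max_eq_right h, mul_comm (y i)]
    exact (prod_param (hp i) (z' i) (z i) (y' i) (y i) h h2 h1).2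
  · rw [min_eq_right h, max_eq_left h]
    exact (prod_param (hp i) (z i) (z' i) (y i) (y' i) h h1 h2).2

/-- **The breathing jump.** -/
theorem N1_breath (hp : ∀ i, (p i).Prime) (hp2 : ∀ i, p i ≠ 2) (hinj : Function.Injective p)
    (m c : ℕ) (hM : ∀ i, (m * c).Coprime (p i)) (rk : ι → ℕ) (g : ι) (e b z z' : ι → ℕ)
    (hb : ∀ i, b i = min (z i) (z' i))
    (hz : ∀ i, i ≠ g → z i = e i ∧ z' i = e i) (hbe : b g ≤ e g) (hbe2 : e g ≤ 2 * b g + 1)
    (he0 : 0 < e g)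
    (ρ ρ' : ∀ i, (ι → ℕ) → ZMod (p i ^ e i))
    (hρ : ∀ i x y, (∀ j, rk j < rk i → x j = y j) → ρ i x = ρ i y)
    (hρ' : ∀ i x y, (∀ j, rk j < rk i → x j = y j) → ρ' i x = ρ' i y)
    (Y Y' : Finset (ι → ℕ)) (hY : Adm p z Y) (hY' : Adm p z' Y')
    (U U' : Finset ℕ) (hU : ∀ u ∈ U, NN p b ∣ u) (hU' : ∀ u ∈ U', NN p b ∣ u)
    (I R : ℕ) (hI : p g ^ ((max (z g) (z' g) - b g) / 2) ≤ I)
    (hN : N2 U U' I (m * NN p b) c (p g ^ (e g - b g)) (p g) R) :
    N1 (plus Y (lc hp hinj (m * c) e ρ) U) (plus Y' (lc hp hinj (m * c) e ρ') U')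
      ((∏ i, (2 * (p i - 1))) * ((∏ i, (2 * (p i - 1))) * (2 * R))) := by
  classical
  intro n
  set C₀ := ∏ i, (2 * (p i - 1)) with hC₀
  set r := lc hp hinj (m * c) e ρ with hr
  set r' := lc hp hinj (m * c) e ρ' with hr'
  have hbe' : ∀ i, b i ≤ e i := by
    intro i
    by_cases hi : i = g
    · subst hi; exact hbe
    · rw [hb i, (hz i hi).1, (hz i hi).2, min_self]
  have hg : ∀ i, i ≠ g → b i = e i := fun i hi => by
    rw [hb i, (hz i hi).1, (hz i hi).2, min_self]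
  -- reduced hash functions
  set σ : ∀ i, (ι → ℕ) → ZMod (p i ^ b i) := fun i x =>
    ZMod.castHom (pow_dvd_pow (p i) (hbe' i)) (ZMod (p i ^ b i)) (ρ i x) with hσ
  set σ' : ∀ i, (ι → ℕ) → ZMod (p i ^ b i) := fun i x =>
    ZMod.castHom (pow_dvd_pow (p i) (hbe' i)) (ZMod (p i ^ b i)) (ρ' i x) with hσ'
  have hσr : ∀ i x y, (∀ j, rk j < rk i → x j = y j) → σ i x = σ i y := fun i x y h => by
    simp only [hσ]; rw [hρ i x y h]
  have hσr' : ∀ i x y, (∀ j, rk j < rk i → x j = y j) → σ' i x = σ' i y := fun i x y h => by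
    simp only [hσ']; rw [hρ' i x y h]
  -- the solutions
  set W := ((Y ×ˢ U) ×ˢ (Y' ×ˢ U')).filter
    (fun t => (r t.1.1 + t.1.2) + (r' t.2.1 + t.2.2) = n) with hW
  have hWmem : ∀ t ∈ W, t.1.1 ∈ Y ∧ t.1.2 ∈ U ∧ t.2.1 ∈ Y' ∧ t.2.2 ∈ U' ∧
      (r t.1.1 + t.1.2) + (r' t.2.1 + t.2.2) = n := by
    intro t ht
    rw [hW, mem_filter, mem_product, mem_product, mem_product] at ht
    exact ⟨ht.1.1.1, ht.1.1.2, ht.1.2.1, ht.1.2.2, ht.2⟩
  have h1 : ((plus Y r U ×ˢ plus Y' r' U').filter (fun t => t.1 + t.2 = n)).card ≤ W.card := by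
    apply Finset.card_le_card_of_surjOn (fun t => (r t.1.1 + t.1.2, r' t.2.1 + t.2.2))
    rintro ⟨a, a'⟩ ht
    simp only [coe_filter, Set.mem_ofPred_eq, mem_product, plus, mem_image, Prod.exists] at ht
    obtain ⟨⟨⟨y, u, ⟨hy, hu⟩, rfl⟩, ⟨y', u', ⟨hy', hu'⟩, rfl⟩⟩, he⟩ := ht
    refine ⟨((y, u), (y', u')), ?_, rfl⟩
    simp only [hW, coe_filter, Set.mem_ofPred_eq, mem_product]
    exact ⟨⟨⟨hy, hu⟩, hy', hu'⟩, he⟩
  refine h1.trans ?_
  -- residues
  have hresid : ∀ t ∈ W, ∀ i, (r t.1.1 + r' t.2.1) ≡ n [MOD p i ^ b i] := by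
    intro t ht i
    obtain ⟨-, hu, -, hu', he⟩ := hWmem t ht
    have h2 : p i ^ b i ∣ t.1.2 + t.2.2 :=
      (pow_dvd_NN p b i).trans (dvd_add (hU _ hu) (hU' _ hu'))
    obtain ⟨k, hk⟩ := h2
    have h3 : n = (r t.1.1 + r' t.2.1) + p i ^ b i * k := by rw [← hk, ← he]; ring
    rw [h3, Nat.ModEq, Nat.add_mul_mod_self_left]
  -- the pairs as vectors
  set S := W.image (fun t => zp t.1.1 t.2.1) with hS
  have hSmem : ∀ t ∈ W, ∀ i, (zp t.1.1 t.2.1 i).1.Prime ∧ (zp t.1.1 t.2.1 i).2.Prime ∧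
      (zp t.1.1 t.2.1 i).1.Coprime (p i) ∧ (zp t.1.1 t.2.1 i).2.Coprime (p i) ∧
      (i ≠ g → (zp t.1.1 t.2.1 i).1 * (zp t.1.1 t.2.1 i).2 < p i ^ (b i + 1)) ∧
      (Lg (p i) (b i) (zp t.1.1 t.2.1 i).1 + σ i (fun j => (zp t.1.1 t.2.1 j).1)) +
        (Lg (p i) (b i) (zp t.1.1 t.2.1 i).2 + σ' i (fun j => (zp t.1.1 t.2.1 j).2))
          = ((n : ℕ) : ZMod (p i ^ b i)) := by
    intro t ht i
    obtain ⟨hy, -, hy', -, -⟩ := hWmem t ht
    obtain ⟨a1, a2, a3⟩ := hY _ hy i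
    obtain ⟨a1', a2', a3'⟩ := hY' _ hy' i
    refine ⟨a1, a1', a2, a2', ?_, ?_⟩
    · intro hi
      have h4 := prod_lt_of_adm hp hY hY' hy hy' i
      rw [(hz i hi).1, (hz i hi).2, max_self, min_self, Nat.sub_self, Nat.zero_div, pow_zero,
        Nat.lt_one_iff, Nat.div_eq_zero_iff] at h4
      rcases h4 with h4 | h4
      · exact absurd h4 (pow_pos (hp i).pos _).ne'
      · rw [hg i hi]; exact h4
    · have h5 := (ZMod.natCast_eq_natCast_iff _ _ _).2 (hresid t ht i)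
      rw [Nat.cast_add, hr, hr', lc_cast hp hp2 hinj _ hM e b hbe' ρ _ i a2,
        lc_cast hp hp2 hinj _ hM e b hbe' ρ' _ i a2'] at h5
      exact h5
  set Θ := S.image (Phi rk g (p g ^ (b g + 1))) with hΘ
  have hΘc : Θ.card ≤ C₀ := by
    refine card_Phi_le hp hp2 b rk g σ σ' hσr hσr' (fun i => ((n : ℕ) : ZMod (p i ^ b i))) S ?_
    intro w hw
    rw [hS, mem_image] at hw
    obtain ⟨t, ht, rfl⟩ := hw
    exact hSmem t ht
  -- the targets
  have hlab : ∀ θ ∈ Θ, ∃ Rθ αθ Eθ : ℕ, Eθ.Coprime (p g) ∧ ∀ t ∈ W,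
      Phi rk g (p g ^ (b g + 1)) (zp t.1.1 t.2.1) = θ →
      ∃ κ < 2, r t.1.1 + r' t.2.1 = (m * c) * Rθ + (m * c) * NN p b *
        ((αθ + Eθ * ((t.1.1 g * t.2.1 g) / p g ^ (b g + 1))) % p g ^ (e g - b g)
          + κ * p g ^ (e g - b g)) := by
    intro θ hθ
    rw [hΘ, mem_image] at hθ
    obtain ⟨w, hw, rfl⟩ := hθ
    rw [hS, mem_image] at hw
    obtain ⟨t₀, ht₀, rfl⟩ := hw
    obtain ⟨-, -, b3, b4, -, -⟩ := hSmem t₀ ht₀ g
    obtain ⟨Rθ, αθ, Eθ, hE, hform⟩ := label_exists hp hp2 hinj (m * c) hM rk g e b hg hbe hbe2 he0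
      ρ ρ' (hρ g) (hρ' g) n t₀.1.1 t₀.2.1 b3 b4
    refine ⟨Rθ, αθ, Eθ, hE, ?_⟩
    intro t ht hPhi
    obtain ⟨-, -, b3', b4', -, -⟩ := hSmem t ht g
    exact hform t.1.1 t.2.1 b3' b4' (hresid t ht) hPhi
  choose! Rf αf Ef hEf hformf using hlab
  -- the image set
  set sol : (ι → ℕ × ℕ) → ℕ → Finset (ℕ × (ℕ × ℕ)) := fun θ κ =>
    (range I ×ˢ (U ×ˢ U')).filter (fun t => t.2.1 + t.2.2 +
      (m * NN p b) * (c * ((αf θ + Ef θ * t.1) % p g ^ (e g - b g) + κ * p g ^ (e g - b g)))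
        = n - (m * c) * Rf θ) with hsol
  set G := Θ.biUnion (fun θ => (range 2).biUnion (fun κ => sol θ κ)) with hG
  have hGc : G.card ≤ C₀ * (2 * R) := by
    refine card_biUnion_le.trans ?_
    refine (Finset.sum_le_card_nsmul _ _ (2 * R) ?_).trans ?_
    · intro θ hθ
      refine card_biUnion_le.trans ?_
      refine (Finset.sum_le_card_nsmul _ _ R ?_).trans (by simp)
      intro κ _
      exact hN (αf θ) (Ef θ) κ _ (hEf θ hθ)
    · rw [smul_eq_mul]
      exact Nat.mul_le_mul_right _ hΘc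
  refine le_trans ?_ (Nat.mul_le_mul_left C₀ hGc)
  refine Finset.card_le_mul_card_image_of_maps_to
    (f := fun t : ((ι → ℕ) × ℕ) × ((ι → ℕ) × ℕ) =>
      (((t.1.1 g * t.2.1 g) / p g ^ (b g + 1), (t.1.2, t.2.2)) : ℕ × (ℕ × ℕ))) ?_ C₀ ?_
  · intro t ht
    obtain ⟨hy, hu, hy', hu', he⟩ := hWmem t ht
    have hθ : Phi rk g (p g ^ (b g + 1)) (zp t.1.1 t.2.1) ∈ Θ :=
      mem_image_of_mem _ (mem_image_of_mem _ ht)
    obtain ⟨κ, hκ, hsum⟩ := hformf _ hθ t ht rfl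
    rw [hG, mem_biUnion]
    refine ⟨_, hθ, ?_⟩
    rw [mem_biUnion]
    refine ⟨κ, mem_range.2 hκ, ?_⟩
    rw [hsol]
    simp only [mem_filter, mem_product, mem_range]
    refine ⟨⟨?_, hu, hu'⟩, ?_⟩
    · refine lt_of_lt_of_le ?_ hI
      have h6 := prod_lt_of_adm hp hY hY' hy hy' g
      rw [← hb g] at h6
      exact h6
    · rw [← he]
      have h7 : (r t.1.1 + t.1.2) + (r' t.2.1 + t.2.2) = (m * c) * Rf
          (Phi rk g (p g ^ (b g + 1)) (zp t.1.1 t.2.1)) + (t.1.2 + t.2.2 + (m * NN p b) * (c *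
          ((αf (Phi rk g (p g ^ (b g + 1)) (zp t.1.1 t.2.1)) +
            Ef (Phi rk g (p g ^ (b g + 1)) (zp t.1.1 t.2.1)) *
              ((t.1.1 g * t.2.1 g) / p g ^ (b g + 1))) % p g ^ (e g - b g)
            + κ * p g ^ (e g - b g)))) := by
        have h8 : (r t.1.1 + t.1.2) + (r' t.2.1 + t.2.2)
            = (r t.1.1 + r' t.2.1) + (t.1.2 + t.2.2) := by ring
        rw [h8, hsum]
        ring
      rw [h7, Nat.add_sub_cancel_left]
  · intro x _
    refine le_trans (card_le_card_of_injOn (fun t => zp t.1.1 t.2.1) (t := (W.filter (fun t =>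
      (((t.1.1 g * t.2.1 g) / p g ^ (b g + 1), (t.1.2, t.2.2)) : ℕ × (ℕ × ℕ)) = x)).image
        (fun t => zp t.1.1 t.2.1)) ?_ ?_) ?_
    · intro t ht
      exact mem_coe.2 (mem_image_of_mem _ (mem_coe.1 ht))
    · intro t ht t' ht' htt
      rw [mem_coe, mem_filter] at ht ht'
      have e1 := ht.2.trans ht'.2.symm
      simp only [Prod.mk.injEq] at e1
      have e2 : t.1.1 = t'.1.1 := by
        funext i
        exact congrArg Prod.fst (congrFun htt i)
      have e3 : t.2.1 = t'.2.1 := by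
        funext i
        exact congrArg Prod.snd (congrFun htt i)
      exact Prod.ext (Prod.ext e2 e1.2.1) (Prod.ext e3 e1.2.2)
    · refine card_code_pairs_quot hp hp2 b rk σ σ' hσr hσr' (fun i => ((n : ℕ) : ZMod (p i ^ b i)))
        (fun i => if i = g then x.1 else 0) _ ?_
      intro w hw i
      rw [mem_image] at hw
      obtain ⟨t, ht, rfl⟩ := hw
      rw [mem_filter] at ht
      obtain ⟨c1, c2, c3, c4, c5, c6⟩ := hSmem t ht.1 i
      refine ⟨c1, c2, c3, c4, ?_, c6⟩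
      by_cases hi : i = g
      · rw [if_pos hi]
        subst hi
        exact congrArg Prod.fst ht.2
      · rw [if_neg hi]
        exact Nat.div_eq_of_lt (c5 hi)

end Pool.Agent.Helper22.HW
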