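import Mathlib

/-!
# Hierarchical windows: closure of the local representation property under one more code level

`cN2 U U' I m c D α E κ n` is the number of triples `(i, u, u')` with `i < I`, `u ∈ U`, `u' ∈ U'`
and `u + u' + m * (c * ((α + E * i) % D + κ * D)) = n`.

The main theorem `N2_step`: if the windows `U`, `U'` consist of multiples of `m * Q` and satisfy the
property for `(m * Q, 1, D₂)`, then the coded sets `r (Y) + U`, `r' (Y') + U'` satisfy it for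
`(m, c, D)`, with the constant multiplied by `3` times the decoding multiplicity.  Here `m` is the
common modulus of the outer level, `m * D₂` the alignment front of the codes `r`, `r'`.
-/

namespace Pool.Agent.Helper22.HW

open Finset

/-- number of solutions of the local equation with an index `i` -/
def cN2 (U U' : Finset ℕ) (I m c D α E κ n : ℕ) : ℕ :=
  ((range I ×ˢ (U ×ˢ U')).filter
    (fun t => t.2.1 + t.2.2 + m * (c * ((α + E * t.1) % D + κ * D)) = n)).card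

/-- local property with an index (`l` differs, the other clocks agree) -/
def N2 (U U' : Finset ℕ) (I m c D P R : ℕ) : Prop :=
  ∀ α E κ n : ℕ, E.Coprime P → cN2 U U' I m c D α E κ n ≤ R

/-- local property with a fixed target -/
def N1 (U U' : Finset ℕ) (R : ℕ) : Prop :=
  ∀ n : ℕ, ((U ×ˢ U').filter (fun t => t.1 + t.2 = n)).card ≤ R

/-- the coded set -/
def plus {β : Type*} [DecidableEq β] (Y : Finset β) (r : β → ℕ) (U : Finset ℕ) : Finset ℕ :=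
  (Y ×ˢ U).image (fun q => r q.1 + q.2)

/-- decoding: a residue of the sum of the codes modulo `Q` has at most `Cd` pairs -/
def Dec {β β' : Type*} (Y : Finset β) (Y' : Finset β') (r : β → ℕ) (r' : β' → ℕ)
    (Q Cd : ℕ) : Prop :=
  ∀ T : ℕ, ((Y ×ˢ Y').filter (fun q => (r q.1 + r' q.2) % Q = T % Q)).card ≤ Cd

/-- the arithmetic of the `l`-jump -/
theorem target_form {m Q c D D₂ α E κ n i s t : ℕ} (hm : 0 < m) (hQ : 0 < Q) (hD₂ : 0 < D₂)
    (hDD : D₂ ∣ D) (hDQ : c * D ≤ Q) (hD : 0 < D) {Qi : ℕ} (hQi : Q * Qi ≡ 1 [MOD D₂])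
    (hs : s < 2 * (m * D₂ * Q)) (hs0 : m * D₂ ∣ s) (ht : m * Q ∣ t)
    (h : s + t + m * (c * ((α + E * i) % D + κ * D)) = n) :
    ∃ κ₂ < 3, t + m * Q * (1 * ((Qi * (c * α + (D₂ - 1) * ((n / m - c * (κ * D)) % Q))
      + (Qi * (c * E)) * i) % D₂ + κ₂ * D₂)) = m * Q * ((n / m - c * (κ * D)) / Q) := by
  obtain ⟨ρ, rfl⟩ := hs0
  obtain ⟨ω, rfl⟩ := ht
  have hn : n / m = D₂ * ρ + Q * ω + c * ((α + E * i) % D) + c * (κ * D) := by
    rw [← h]
    have : m * D₂ * ρ + m * Q * ω + m * (c * ((α + E * i) % D + κ * D))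
        = m * (D₂ * ρ + Q * ω + c * ((α + E * i) % D) + c * (κ * D)) := by ring
    rw [this, Nat.mul_div_cancel_left _ hm]
  have hx : n / m - c * (κ * D) = D₂ * ρ + Q * ω + c * ((α + E * i) % D) := by omega
  rw [hx]
  set x := c * ((α + E * i) % D) with hxdef
  have hxD : x ≤ c * (D - 1) := Nat.mul_le_mul_left _ (Nat.le_sub_one_of_lt (Nat.mod_lt _ hD))
  have hxQ : x ≤ Q := hxD.trans ((Nat.mul_le_mul_left _ (Nat.sub_le _ _)).trans hDQ)
  have hρ : ρ < 2 * Q := by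
    by_contra hc
    push Not at hc
    have : m * D₂ * (2 * Q) ≤ m * D₂ * ρ := Nat.mul_le_mul_left _ hc
    have h2 : 2 * (m * D₂ * Q) = m * D₂ * (2 * Q) := by ring
    omega
  set ξ := D₂ * ρ + Q * ω + x with hξ
  set A := ξ / Q with hA
  set ρ₀ := ξ % Q with hρ₀
  have hdm : Q * A + ρ₀ = ξ := Nat.div_add_mod ξ Q
  have hρ₀Q : ρ₀ < Q := Nat.mod_lt _ hQ
  -- `ω ≤ A`
  have hωA : ω ≤ A := by
    rw [hA, Nat.le_div_iff_mul_le hQ, mul_comm]
    omega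
  obtain ⟨z, hz⟩ := Nat.exists_eq_add_of_le hωA
  have hQz : Q * z + ρ₀ = D₂ * ρ + x := by
    have : Q * A = Q * ω + Q * z := by rw [hz]; ring
    omega
  -- `z ≤ 2 * D₂`
  have hzlt : z < 2 * D₂ + 1 := by
    by_contra hc
    push Not at hc
    have h1 : Q * (2 * D₂ + 1) ≤ Q * z := Nat.mul_le_mul_left _ hc
    have h2 : D₂ * ρ + D₂ ≤ D₂ * (2 * Q) := by
      have : D₂ * (ρ + 1) ≤ D₂ * (2 * Q) := Nat.mul_le_mul_left _ hρ
      linarith [this, (by ring : D₂ * (ρ + 1) = D₂ * ρ + D₂)]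
    have h3 : Q * (2 * D₂ + 1) = D₂ * (2 * Q) + Q := by ring
    omega
  -- the residue of `z`
  have hzmod : z % D₂ = (Qi * (c * α + (D₂ - 1) * ρ₀) + Qi * (c * E) * i) % D₂ := by
    have hcast : ((Q * z + ρ₀ : ℕ) : ZMod D₂) = ((c * (α + E * i) : ℕ) : ZMod D₂) := by
      rw [hQz]
      have h1 : (D₂ * ρ + x) ≡ c * (α + E * i) [MOD D₂] := by
        have h2 : x ≡ c * (α + E * i) [MOD D₂] :=
          ((Nat.mod_modEq (α + E * i) D).of_dvd hDD).mul_left c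
        have h3 : D₂ * ρ ≡ 0 [MOD D₂] := (Nat.modEq_zero_iff_dvd).2 (dvd_mul_right _ _)
        simpa using h3.add h2
      exact (ZMod.natCast_eq_natCast_iff _ _ _).2 h1
    have hQi' : ((Q : ZMod D₂)) * (Qi : ZMod D₂) = 1 := by
      have := (ZMod.natCast_eq_natCast_iff _ _ _).2 hQi
      push_cast at this
      exact this
    have hD1 : ((D₂ - 1 : ℕ) : ZMod D₂) = -1 := by
      rw [Nat.cast_sub hD₂]
      simp
    have hgoal : ((z : ℕ) : ZMod D₂)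
        = ((Qi * (c * α + (D₂ - 1) * ρ₀) + Qi * (c * E) * i : ℕ) : ZMod D₂) := by
      push_cast [hD1] at hcast ⊢
      have h4 : (z : ZMod D₂) = (Qi : ZMod D₂) * ((Q : ZMod D₂) * z) := by
        rw [← mul_assoc, mul_comm (Qi : ZMod D₂), hQi', one_mul]
      rw [h4]
      have h5 : (Q : ZMod D₂) * z = c * (α + E * i) - ρ₀ := by
        rw [← hcast]; ring
      rw [h5]
      ring
    exact (ZMod.natCast_eq_natCast_iff' _ _ _).1 hgoal
  refine ⟨z / D₂, ?_, ?_⟩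
  · rw [Nat.div_lt_iff_lt_mul hD₂]
    omega
  · rw [← hzmod]
    have h6 : z % D₂ + z / D₂ * D₂ = z := by
      rw [mul_comm (z / D₂)]
      exact Nat.mod_add_div z D₂
    rw [h6, hz]
    ring

/-- counting step: tuples with codes against tuples without codes -/
theorem card_plus_le {ι β β' : Type*} [DecidableEq ι] [DecidableEq β] [DecidableEq β']
    (S : Finset ι) (Y : Finset β) (Y' : Finset β') (r : β → ℕ) (r' : β' → ℕ)
    (U U' : Finset ℕ) (g : ι → ℕ) (n Q Cd : ℕ) (hdec : Dec Y Y' r r' Q Cd)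
    (G : Finset (ι × (ℕ × ℕ)))
    (hG : ∀ i ∈ S, ∀ y ∈ Y, ∀ y' ∈ Y', ∀ u ∈ U, ∀ u' ∈ U',
      (r y + r' y') + (u + u') + g i = n → (i, (u, u')) ∈ G) :
    ((S ×ˢ (plus Y r U ×ˢ plus Y' r' U')).filter (fun t => t.2.1 + t.2.2 + g t.1 = n)).card
      ≤ Cd * G.card := by
  classical
  set W := ((S ×ˢ ((Y ×ˢ U) ×ˢ (Y' ×ˢ U'))).filter
    (fun t => (r t.2.1.1 + r' t.2.2.1) + (t.2.1.2 + t.2.2.2) + g t.1 = n)) with hW
  have h1 : ((S ×ˢ (plus Y r U ×ˢ plus Y' r' U')).filter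
      (fun t => t.2.1 + t.2.2 + g t.1 = n)).card ≤ W.card := by
    apply Finset.card_le_card_of_surjOn
      (fun t => (t.1, (r t.2.1.1 + t.2.1.2, r' t.2.2.1 + t.2.2.2)))
    rintro ⟨i, a, a'⟩ ht
    simp only [coe_filter, Set.mem_ofPred_eq, mem_product, plus, mem_image, Prod.exists] at ht
    obtain ⟨⟨hi, ⟨y, u, ⟨hy, hu⟩, rfl⟩, ⟨y', u', ⟨hy', hu'⟩, rfl⟩⟩, he⟩ := ht
    refine ⟨(i, ((y, u), (y', u'))), ?_, rfl⟩
    simp only [hW, coe_filter, Set.mem_ofPred_eq, mem_product]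
    refine ⟨⟨hi, ⟨hy, hu⟩, hy', hu'⟩, ?_⟩
    omega
  refine h1.trans ?_
  apply Finset.card_le_mul_card_image_of_maps_to
    (f := fun t : ι × ((β × ℕ) × (β' × ℕ)) => ((t.1, (t.2.1.2, t.2.2.2)) : ι × (ℕ × ℕ)))
  · rintro ⟨i, ⟨y, u⟩, ⟨y', u'⟩⟩ ht
    simp only [hW, mem_filter, mem_product] at ht
    exact hG i ht.1.1 y ht.1.2.1.1 y' ht.1.2.2.1 u ht.1.2.1.2 u' ht.1.2.2.2 ht.2
  · rintro ⟨i, u, u'⟩ _
    refine le_trans ?_ (hdec (n - (u + u' + g i)))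
    apply Finset.card_le_card_of_injOn
      (fun t : ι × ((β × ℕ) × (β' × ℕ)) => (t.2.1.1, t.2.2.1))
    · rintro ⟨j, ⟨y, v⟩, ⟨y', v'⟩⟩ ht
      simp only [hW, coe_filter, Set.mem_ofPred_eq, mem_filter, mem_product, Prod.mk.injEq] at ht
      obtain ⟨⟨⟨hj, ⟨hy, hv⟩, hy', hv'⟩, he⟩, rfl, rfl, rfl⟩ := ht
      simp only [coe_filter, Set.mem_ofPred_eq, mem_product]
      refine ⟨⟨hy, hy'⟩, ?_⟩
      congr 1
      omega
    · rintro ⟨j, ⟨y, v⟩, ⟨y', v'⟩⟩ ht ⟨k, ⟨z, w⟩, ⟨z', w'⟩⟩ hs hf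
      simp only [coe_filter, Set.mem_ofPred_eq, Prod.mk.injEq] at ht hs hf
      obtain ⟨_, rfl, rfl, rfl⟩ := ht
      obtain ⟨_, rfl, rfl, rfl⟩ := hs
      obtain ⟨rfl, rfl⟩ := hf
      rfl

/-- **Closure, `l`-jump.** -/
theorem N2_step {β β' : Type*} [DecidableEq β] [DecidableEq β'] (Y : Finset β) (Y' : Finset β')
    (r : β → ℕ) (r' : β' → ℕ) (U U' : Finset ℕ) {I m Q c D D₂ P R Cd : ℕ}
    (hm : 0 < m) (hQ : 0 < Q) (hD₂ : 0 < D₂) (hD : 0 < D) (hDD : D₂ ∣ D) (hDQ : c * D ≤ Q)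
    (hcop : Q.Coprime D₂) (hP : P ∣ D₂) (hcP : c.Coprime P)
    (hr : ∀ y ∈ Y, r y < m * D₂ * Q ∧ m * D₂ ∣ r y)
    (hr' : ∀ y ∈ Y', r' y < m * D₂ * Q ∧ m * D₂ ∣ r' y)
    (hU : ∀ u ∈ U, m * Q ∣ u) (hU' : ∀ u ∈ U', m * Q ∣ u)
    (hdec : Dec Y Y' r r' Q Cd) (hN : N2 U U' I (m * Q) 1 D₂ P R) :
    N2 (plus Y r U) (plus Y' r' U') I m c D P (Cd * (3 * R)) := by
  classical
  obtain ⟨Qi, hQi⟩ : ∃ Qi, Q * Qi ≡ 1 [MOD D₂] := by
    obtain ⟨b, _, hb⟩ := Nat.exists_mul_mod_eq_of_coprime (n := Q) (k := D₂) 1 hcop hD₂.ne'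
    exact ⟨b, hb⟩
  intro α E κ n hE
  set n₁ := n / m - c * (κ * D) with hn₁
  set α₂ := Qi * (c * α + (D₂ - 1) * (n₁ % Q)) with hα₂
  set E₂ := Qi * (c * E) with hE₂
  have hE₂P : E₂.Coprime P := by
    have h1 : Qi.Coprime D₂ := by
      have : (Q * Qi).Coprime D₂ := by
        rw [Nat.coprime_iff_gcd_eq_one, Nat.ModEq.gcd_eq hQi]
        simp
      exact Nat.Coprime.coprime_mul_left this
    exact Nat.Coprime.mul_left (Nat.Coprime.coprime_dvd_right hP h1)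
      (Nat.Coprime.mul_left hcP hE)
  set G : Finset (ℕ × (ℕ × ℕ)) := (range 3).biUnion (fun κ₂ =>
    (range I ×ˢ (U ×ˢ U')).filter
      (fun t => t.2.1 + t.2.2 + (m * Q) * (1 * ((α₂ + E₂ * t.1) % D₂ + κ₂ * D₂))
        = m * Q * (n₁ / Q)))
    with hG
  have hGc : G.card ≤ 3 * R := by
    refine (card_biUnion_le).trans ?_
    refine (Finset.sum_le_card_nsmul _ _ R ?_).trans (by simp)
    intro κ₂ _
    exact hN α₂ E₂ κ₂ _ hE₂P
  refine le_trans (card_plus_le (range I) Y Y' r r' U U'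
    (fun i => m * (c * ((α + E * i) % D + κ * D))) n Q Cd hdec G ?_) (Nat.mul_le_mul_left _ hGc)
  intro i hi y hy y' hy' u hu u' hu' he
  obtain ⟨κ₂, hκ, hres⟩ := target_form (m := m) (Q := Q) (c := c) (D := D) (D₂ := D₂) (α := α) (E := E)
    (κ := κ) (n := n) (i := i) (s := r y + r' y') (t := u + u') hm hQ hD₂ hDD hDQ hD hQi
    (by have h1 := (hr y hy).1; have h2 := (hr' y' hy').1; omega)
    (dvd_add (hr y hy).2 (hr' y' hy').2) (dvd_add (hU u hu) (hU' u' hu')) he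
  rw [hG, mem_biUnion]
  refine ⟨κ₂, mem_range.2 hκ, ?_⟩
  rw [mem_filter, mem_product, mem_product]
  exact ⟨⟨hi, hu, hu'⟩, hres⟩

/-- **Closure, fixed target** (all codes decode: `l`, `Q` agree; fronts may differ). -/
theorem N1_step {β β' : Type*} [DecidableEq β] [DecidableEq β'] (Y : Finset β) (Y' : Finset β')
    (r : β → ℕ) (r' : β' → ℕ) (U U' : Finset ℕ) {Q R Cd : ℕ}
    (hU : ∀ u ∈ U, Q ∣ u) (hU' : ∀ u ∈ U', Q ∣ u)
    (hdec : Dec Y Y' r r' Q Cd) (hN : N1 U U' R) :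
    N1 (plus Y r U) (plus Y' r' U') (Cd * R) := by
  classical
  intro n
  set Z := (Y ×ˢ Y').filter (fun q => (r q.1 + r' q.2) % Q = n % Q) with hZ
  have hZc : Z.card ≤ Cd := hdec n
  set W := Z.biUnion (fun q => ((U ×ˢ U').filter (fun t => t.1 + t.2 = n - (r q.1 + r' q.2))).image
    (fun t => (r q.1 + t.1, r' q.2 + t.2))) with hW
  have h1 : W.card ≤ Cd * R := by
    refine card_biUnion_le.trans ?_
    refine (Finset.sum_le_card_nsmul _ _ R (fun q _ => card_image_le.trans (hN _))).trans ?_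
    rw [smul_eq_mul]
    exact Nat.mul_le_mul_right _ hZc
  refine le_trans (card_le_card ?_) h1
  rintro ⟨a, a'⟩ h
  rw [mem_filter, mem_product] at h
  obtain ⟨⟨ha, ha'⟩, he⟩ := h
  simp only [plus, mem_image, mem_product, Prod.exists] at ha ha'
  obtain ⟨y, u, ⟨hy, hu⟩, rfl⟩ := ha
  obtain ⟨y', u', ⟨hy', hu'⟩, rfl⟩ := ha'
  rw [hW, mem_biUnion]
  refine ⟨(y, y'), ?_, ?_⟩
  · rw [hZ, mem_filter, mem_product]
    refine ⟨⟨hy, hy'⟩, ?_⟩
    obtain ⟨k, hk⟩ := dvd_add (hU u hu) (hU' u' hu')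
    have : n = (r y + r' y') + Q * k := by rw [← hk]; simp only at he; omega
    rw [this, Nat.add_mul_mod_self_left]
  · rw [mem_image]
    refine ⟨(u, u'), ?_, rfl⟩
    rw [mem_filter, mem_product]
    refine ⟨⟨hu, hu'⟩, ?_⟩
    simp only at he ⊢
    omega

end Pool.Agent.Helper22.HW
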