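import Pool.Agent.Helper22.HW.Keys

/-!
# The union bound for several parts (side and level) at once

A candidate carries an index `g`, for each part `a` a vector `y a` and a code `u a`.  It is a hit
if the code of `y a` under the random keys is `u a` for every part.  `tuple_parts`: the number of
key assignments with `m + 1` hits with pairwise disjoint fresh keys is at most `#Om * #Cand * Q^m`
if `#Cand` is at most `Q` times the product of the fresh moduli of all parts.
-/

namespace Pool.Agent.Helper22.HW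

open Finset Pool.Agent.Helper27.T4 Pool.Agent.Helper29.T4

variable {ι : Type*} {p : ι → ℕ} {κ : Type*} [DecidableEq κ]

/-- a candidate with several parts -/
structure Cd (ι γ α : Type*) where
  /-- index of the target -/
  g : γ
  /-- vectors -/
  y : α → ι → ℕ
  /-- codes -/
  u : α → ℕ

/-- all codes are the prescribed ones -/
def IsHits [Fintype ι] (hp : ∀ i, (p i).Prime) (hinj : Function.Injective p) {γ α : Type*}
    (S : α → Side p κ) (w : κ → ℕ) (t : Cd ι γ α) : Prop :=
  ∀ a, (S a).cd hp hinj w (t.y a) = t.u a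

/-- the fresh keys of a candidate -/
def fks {γ α : Type*} [Fintype α] (S : α → Side p κ) (R : α → Finset ι) (t : Cd ι γ α) :
    Finset κ :=
  univ.biUnion (fun a => (S a).fk (R a) (t.y a))

/-- the fresh keys of two candidates are disjoint if they are so part by part -/
theorem disjoint_fks {γ α : Type*} [Fintype α] {S : α → Side p κ} {R : α → Finset ι}
    (hdisj : ∀ a a', a ≠ a' → ∀ i y i' y', (S a).key i y ≠ (S a').key i' y') (t t' : Cd ι γ α)
    (h : ∀ a, Disjoint ((S a).fk (R a) (t.y a)) ((S a).fk (R a) (t'.y a))) :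
    Disjoint (fks S R t) (fks S R t') := by
  rw [Finset.disjoint_left]
  intro k hk hk'
  rw [fks, mem_biUnion] at hk hk'
  obtain ⟨a, _, ha⟩ := hk
  obtain ⟨a', _, ha'⟩ := hk'
  by_cases he : a = a'
  · subst he
    exact (Finset.disjoint_left.1 (h a) ha) ha'
  · rw [Side.fk, mem_image] at ha ha'
    obtain ⟨i, _, hi⟩ := ha
    obtain ⟨i', _, hi'⟩ := ha'
    exact hdisj a a' he i _ i' _ (hi.trans hi'.symm)

/-- part by part: the families are of rank `≥ r` and the initial parts differ, or no family -/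
theorem Side.Ok.disjoint_fk' {S : Side p κ} {rk : ι → ℕ} {Mk : κ → ℕ} (h : S.Ok rk Mk)
    (R : Finset ι) (r : ℕ) (hR : ∀ i ∈ R, r ≤ rk i) (y y' : ι → ℕ)
    (hne : R.Nonempty → PreNe rk r y y') :
    Disjoint (S.fk R y) (S.fk R y') := by
  rw [Finset.disjoint_left]
  intro k hk hk'
  rw [Side.fk, mem_image] at hk hk'
  obtain ⟨i, hi, rfl⟩ := hk
  obtain ⟨i', hi', he⟩ := hk'
  obtain ⟨hii, hj⟩ := h.inj i' i y' y he
  subst hii
  obtain ⟨j, hj0, hjne⟩ := hne ⟨_, hi⟩
  exact hjne (hj j (lt_of_lt_of_le hj0 (hR _ hi))).symm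

open Classical in
/-- **The tuple bound with several parts.** -/
theorem tuple_parts [Fintype ι] (hp : ∀ i, (p i).Prime) (hinj : Function.Injective p)
    {γ α : Type*} [Fintype α] {S : α → Side p κ} {rk : ι → ℕ} {Mk : κ → ℕ}
    (hS : ∀ a, (S a).Ok rk Mk)
    (hdisj : ∀ a a', a ≠ a' → ∀ i y i' y', (S a).key i y ≠ (S a').key i' y')
    (hMk : ∀ k, 0 < Mk k) (R : α → Finset ι) (K1 : Finset κ) (w0 : κ → ℕ)
    (Cand : Finset (Cd ι γ α))
    (hK : ∀ t ∈ Cand, ∀ a, ∀ i ∈ R a, (S a).key i (t.y a) ∈ K1)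
    (Q : ℝ) (hQ : (Cand.card : ℝ) ≤ Q * ∏ a, (MM p (S a).e (R a) : ℝ)) (m : ℕ)
    (B : Finset (K1 → ℕ))
    (hB : ∀ ω ∈ B, ω ∈ Om (fun k : K1 => Mk k) ∧ ∃ T ⊆ Cand, T.card = m + 1 ∧
        (∀ t ∈ T, IsHits hp hinj S (comb K1 w0 ω) t) ∧
        (∀ t ∈ T, ∀ t' ∈ T, t ≠ t' → Disjoint (fks S R t) (fks S R t'))) :
    (B.card : ℝ) ≤ (Om (fun k : K1 => Mk k)).card * (Cand.card * Q ^ m) := by
  classical
  -- fresh keys inside `K1`
  set fkt : Cd ι γ α → Finset K1 := fun t =>
    Finset.univ.filter (fun k : K1 => (k : κ) ∈ fks S R t) with hfkt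
  have hmem : ∀ (t : Cd ι γ α) (k : K1), k ∈ fkt t ↔
      ∃ ai : α × ι, ai.2 ∈ R ai.1 ∧ (S ai.1).key ai.2 (t.y ai.1) = (k : κ) := by
    intro t k
    rw [hfkt]
    simp only [mem_filter, mem_univ, true_and, fks, mem_biUnion, Side.fk, mem_image]
    constructor
    · rintro ⟨a, i, hi, he⟩
      exact ⟨(a, i), hi, he⟩
    · rintro ⟨⟨a, i⟩, hi, he⟩
      exact ⟨a, i, hi, he⟩
  -- the values
  set vl : Cd ι γ α → K1 → ℕ := fun t k =>
    if h : ∃ ai : α × ι, ai.2 ∈ R ai.1 ∧ (S ai.1).key ai.2 (t.y ai.1) = (k : κ) then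
      kval (S h.choose.1) (t.y h.choose.1) (t.u h.choose.1) h.choose.2
    else 0 with hvl
  refine tuple_bound_set (fun k : K1 => Mk k) (fun k => hMk k) Cand
    (fun t ω => IsHits hp hinj S (comb K1 w0 ω) t) fkt vl ?_ Q ?_ m B ?_
  · -- the values are forced
    intro t ht ω hω hhit k hk
    have h := (hmem t k).1 hk
    have hωk : ω k < Mk k := by
      rw [Om, Fintype.mem_piFinset] at hω
      exact mem_range.1 (hω k)
    have hcomb : comb K1 w0 ω (k : κ) = ω k := comb_mem k.2
    simp only [hvl, dif_pos h]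
    have hch := h.choose_spec
    have h3 := key_value hp hinj (hS h.choose.1) (comb K1 w0 ω) (t.y h.choose.1)
      (t.u h.choose.1) h.choose.2 (by rw [hch.2, hcomb]; exact hωk) (hhit h.choose.1)
    rw [hch.2, hcomb] at h3
    exact h3
  · -- the weights
    have hpos : (0 : ℝ) < ∏ a, (MM p (S a).e (R a) : ℝ) := by
      refine Finset.prod_pos (fun a _ => ?_)
      exact_mod_cast MM_pos hp (S a).e (R a)
    have hw : ∀ z ∈ Cand, ∏ k ∈ fkt z, ((Mk (k : κ) : ℝ))⁻¹
        = (∏ a, (MM p (S a).e (R a) : ℝ))⁻¹ := by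
      intro z hz
      have h1 : ∏ k ∈ fkt z, ((Mk (k : κ) : ℝ))⁻¹ = ∏ k ∈ fks S R z, ((Mk k : ℝ))⁻¹ := by
        rw [← Finset.prod_image (s := fkt z) (g := fun k : K1 => (k : κ))
          (f := fun k => ((Mk k : ℝ))⁻¹) (fun a _ b _ hab => Subtype.ext hab)]
        congr 1
        ext k
        rw [mem_image]
        constructor
        · rintro ⟨k', hk', rfl⟩
          rw [hfkt] at hk'
          simp only [mem_filter, mem_univ, true_and] at hk'
          exact hk'
        · intro hk
          have hkK : k ∈ K1 := by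
            rw [fks, mem_biUnion] at hk
            obtain ⟨a, _, ha⟩ := hk
            rw [Side.fk, mem_image] at ha
            obtain ⟨i, hi, rfl⟩ := ha
            exact hK z hz a i hi
          refine ⟨⟨k, hkK⟩, ?_, rfl⟩
          rw [hfkt]
          simp only [mem_filter, mem_univ, true_and]
          exact hk
      rw [h1, fks, Finset.prod_biUnion]
      · rw [← Finset.prod_inv_distrib]
        exact Finset.prod_congr rfl (fun a _ => (hS a).prod_fk (R a) (z.y a))
      · intro a _ a' _ haa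
        rw [Function.onFun, Finset.disjoint_left]
        intro k hk hk'
        rw [Side.fk, mem_image] at hk hk'
        obtain ⟨i, _, hi⟩ := hk
        obtain ⟨i', _, hi'⟩ := hk'
        exact hdisj a a' haa i _ i' _ (hi.trans hi'.symm)
    rw [Finset.sum_congr rfl hw, Finset.sum_const, nsmul_eq_mul, ← div_eq_mul_inv,
      div_le_iff₀ hpos]
    exact hQ
  · intro ω hω
    obtain ⟨hω1, T, hT, hTc, hhit, hd⟩ := hB ω hω
    refine ⟨hω1, T, hT, hTc, hhit, ?_⟩
    intro t ht t' ht' htt
    have hdd := hd t ht t' ht' htt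
    rw [Finset.disjoint_left]
    intro k hk hk'
    rw [hfkt] at hk hk'
    simp only [mem_filter, mem_univ, true_and] at hk hk'
    exact (Finset.disjoint_left.1 hdd hk) hk'

end Pool.Agent.Helper22.HW
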