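import Pool.Agent.Helper22.HW.Price

/-!
# The price of a hit against a progression of targets

The sum `r + r'` of two codes with fresh components runs through a progression of difference `σ`
(the product of everything which is fixed).  So the number of pairs of residue vectors and windows
with sum `X` is at most `(min A A' / lcm B B' + 1)` times the number of `(τ, u, u')` with
`s + σ * τ + (u + u') = X`.
-/

namespace Pool.Agent.Helper22.HW

open Finset Pool.Agent.Helper27.T4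

/-- the two-sided count against a progression of targets -/
def cAP (U U' : Finset ℕ) (L σ s X : ℕ) : ℕ :=
  ((range L ×ˢ (U ×ˢ U')).filter (fun t => s + σ * t.1 + (t.2.1 + t.2.2) = X)).card

/-- abstract form -/
theorem ap_count {δ : Type*} (F : Finset (δ × (ℕ × ℕ))) (U U' : Finset ℕ)
    (T : δ → ℕ) (Cn L σ s X : ℕ) (hσ : 0 < σ)
    (hU : ∀ t ∈ F, t.2.1 ∈ U ∧ t.2.2 ∈ U')
    (hT : ∀ t ∈ F, T t.1 % σ = s ∧ T t.1 < σ * L ∧ T t.1 + (t.2.1 + t.2.2) = X)
    (hC : ∀ t ∈ F, (F.filter (fun t' => t'.2 = t.2)).card ≤ Cn) :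
    F.card ≤ Cn * cAP U U' L σ s X := by
  classical
  refine Finset.card_le_mul_card_image_of_maps_to
    (f := fun t : δ × (ℕ × ℕ) => ((T t.1 / σ, t.2) : ℕ × (ℕ × ℕ))) ?_ Cn ?_
  · intro t ht
    obtain ⟨h1, h2⟩ := hU t ht
    obtain ⟨h3, h4, h5⟩ := hT t ht
    simp only [mem_filter, mem_product, mem_range]
    refine ⟨⟨?_, h1, h2⟩, ?_⟩
    · rw [Nat.div_lt_iff_lt_mul hσ, mul_comm]
      exact h4
    · have h6 : s + σ * (T t.1 / σ) = T t.1 := by
        rw [← h3]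
        exact Nat.mod_add_div _ _
      rw [h6]
      exact h5
  · intro x hx
    by_cases hne : (F.filter (fun t => ((T t.1 / σ, t.2) : ℕ × (ℕ × ℕ)) = x)).Nonempty
    · obtain ⟨t₀, ht₀⟩ := hne
      rw [mem_filter] at ht₀
      refine le_trans (card_le_card ?_) (hC t₀ ht₀.1)
      intro t ht
      rw [mem_filter] at ht ⊢
      refine ⟨ht.1, ?_⟩
      have h7 : ((T t.1 / σ, t.2) : ℕ × (ℕ × ℕ)) = (T t₀.1 / σ, t₀.2) := ht.2.trans ht₀.2.symm
      exact (Prod.mk.injEq _ _ _ _ ▸ h7).2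
    · rw [Finset.not_nonempty_iff_eq_empty] at hne
      rw [hne, card_empty]
      exact Nat.zero_le _

/-- **Price of a hit against a progression, in numbers**: pairs `(r, r')` of numbers below `A`,
`A'` in fixed classes modulo `B`, `B'`, and windows `(u, u')`, with sum `X`. -/
theorem num_ap {A A' B B' : ℕ} (hB : 0 < B) (hB' : 0 < B') (X : ℕ) (U U' : Finset ℕ)
    (L σ s : ℕ) (hσ : 0 < σ) (F : Finset ((ℕ × ℕ) × (ℕ × ℕ)))
    (hA : ∀ t ∈ F, t.1.1 < A ∧ t.1.2 < A')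
    (hcl : ∀ t ∈ F, ∀ t' ∈ F, t.1.1 ≡ t'.1.1 [MOD B] ∧ t.1.2 ≡ t'.1.2 [MOD B'])
    (hU : ∀ t ∈ F, t.2.1 ∈ U ∧ t.2.2 ∈ U')
    (hX : ∀ t ∈ F, (t.1.1 + t.1.2) + (t.2.1 + t.2.2) = X)
    (hs : ∀ t ∈ F, (t.1.1 + t.1.2) % σ = s) (hL : A + A' ≤ σ * L) :
    F.card ≤ (min A A' / Nat.lcm B B' + 1) * cAP U U' L σ s X := by
  classical
  refine ap_count F U U' (fun q => q.1 + q.2) _ L σ s X hσ hU ?_ ?_
  · intro t ht
    obtain ⟨h1, h2⟩ := hA t ht
    exact ⟨hs t ht, lt_of_lt_of_le (Nat.add_lt_add h1 h2) hL, hX t ht⟩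
  · intro q hq
    have h3 : (F.filter (fun q' => q'.2 = q.2)).card
        = ((F.filter (fun q' => q'.2 = q.2)).image Prod.fst).card := by
      rw [Finset.card_image_of_injOn]
      intro x hx y hy hxy
      rw [mem_coe, mem_filter] at hx hy
      exact Prod.ext hxy (hx.2.trans hy.2.symm)
    rw [h3]
    refine pair_sum_card (T := X - (q.2.1 + q.2.2)) hB hB' _ ?_ ?_
    · intro x hx
      rw [mem_image] at hx
      obtain ⟨y, hy, rfl⟩ := hx
      rw [mem_filter] at hy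
      refine ⟨(hA y hy.1).1, (hA y hy.1).2, ?_⟩
      have h4 := hX y hy.1
      rw [← hy.2]
      omega
    · intro x hx x' hx'
      rw [mem_image] at hx hx'
      obtain ⟨y, hy, rfl⟩ := hx
      obtain ⟨y', hy', rfl⟩ := hx'
      rw [mem_filter] at hy hy'
      exact hcl y hy.1 y' hy'.1

variable {ι : Type*} [Fintype ι] [DecidableEq ι] {p : ι → ℕ}

/-- **Price of a hit against a progression.**  `F` is a set of tuples (residue vectors of the two
sides, windows) whose codes and windows have the sum `X`. -/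
theorem front_ap (hp : ∀ i, (p i).Prime) (hinj : Function.Injective p) (M M' : ℕ)
    (hM0 : 0 < M) (hM0' : 0 < M')
    (hM : ∀ i, M.Coprime (p i)) (hM' : ∀ i, M'.Coprime (p i)) {a a' : ι → ℕ}
    (R R' : Finset ι) (X : ℕ) (t : ∀ i, ZMod (p i ^ a i)) (t' : ∀ i, ZMod (p i ^ a' i))
    (U U' : Finset ℕ) (L σ s : ℕ) (hσ : 0 < σ)
    (F : Finset (((∀ i, ZMod (p i ^ a i)) × (∀ i, ZMod (p i ^ a' i))) × (ℕ × ℕ)))
    (hF : ∀ q ∈ F, (∀ i, i ∉ R → q.1.1 i = t i) ∧ (∀ i, i ∉ R' → q.1.2 i = t' i) ∧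
      q.2.1 ∈ U ∧ q.2.2 ∈ U' ∧
      fc hp hinj M a q.1.1 + fc hp hinj M' a' q.1.2 + (q.2.1 + q.2.2) = X)
    (hs : ∀ q ∈ F, (fc hp hinj M a q.1.1 + fc hp hinj M' a' q.1.2) % σ = s)
    (hL : M * NN p a + M' * NN p a' ≤ σ * L) :
    F.card ≤ (min (M * NN p a) (M' * NN p a') /
      Nat.lcm (M * NN p (fx a R)) (M' * NN p (fx a' R')) + 1) * cAP U U' L σ s X := by
  classical
  refine ap_count F U U' (fun q => fc hp hinj M a q.1 + fc hp hinj M' a' q.2) _ L σ s X hσ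
    (fun q hq => ⟨(hF q hq).2.2.1, (hF q hq).2.2.2.1⟩) ?_ ?_
  · intro q hq
    refine ⟨hs q hq, ?_, (hF q hq).2.2.2.2⟩
    have h1 := fc_lt hp hinj M hM0 a q.1.1
    have h2 := fc_lt hp hinj M' hM0' a' q.1.2
    exact lt_of_lt_of_le (Nat.add_lt_add h1 h2) hL
  · intro q hq
    have h3 : (F.filter (fun q' => q'.2 = q.2)).card
        = ((F.filter (fun q' => q'.2 = q.2)).image Prod.fst).card := by
      rw [Finset.card_image_of_injOn]
      intro x hx y hy hxy
      rw [mem_coe, mem_filter] at hx hy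
      exact Prod.ext hxy (hx.2.trans hy.2.symm)
    rw [h3]
    refine front_count hp hinj M M' hM0 hM0' hM hM' R R' (X - (q.2.1 + q.2.2)) t t' _ ?_
    intro x hx
    rw [mem_image] at hx
    obtain ⟨y, hy, rfl⟩ := hx
    rw [mem_filter] at hy
    obtain ⟨a1, a2, -, -, a5⟩ := hF y hy.1
    refine ⟨a1, a2, ?_⟩
    rw [← hy.2]
    omega

end Pool.Agent.Helper22.HW
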