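import Pool.Agent.Helper22.HW.Closure

/-!
# Reduction of a pair of scales to a common front (static design)

All codes of the levels `<= j` together have a sum `s` which is divisible by `m`, whose quotient by
`m` is in the class `cl i` modulo `D₂` (`m * D₂` is the common front), and which is `< h m D₂ Q`.
Then the sum `t = n - s` of the windows (a multiple of `m Q`) is, for every label `i`, one of `h`
numbers which are determined by few digits of the data.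
-/

namespace Pool.Agent.Helper22.HW

open Finset

/-- number of solutions of the local equation with a class map -/
def cN (U U' : Finset ℕ) (I m D : ℕ) (cl : ℕ → ℕ) (κ n : ℕ) : ℕ :=
  ((range I ×ˢ (U ×ˢ U')).filter
    (fun t => t.2.1 + t.2.2 + m * ((cl t.1) % D + κ * D) = n)).card

theorem cN2_eq_cN (U U' : Finset ℕ) (I m D α E κ n : ℕ) :
    cN2 U U' I m 1 D α E κ n = cN U U' I m D (fun i => α + E * i) κ n := by
  unfold cN2 cN
  simp only [one_mul]

/-- **The reduction, arithmetic.** -/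
theorem stack_target {m Q D₂ h n s t i : ℕ} {cl : ℕ → ℕ} (hm : 0 < m) (hQ : 0 < Q) (hD₂ : 0 < D₂)
    {Qi : ℕ} (hQi : Q * Qi ≡ 1 [MOD D₂]) (hs : s < h * (m * D₂ * Q)) (hms : m ∣ s)
    (hcl : s / m ≡ cl i [MOD D₂]) (ht : m * Q ∣ t) (he : s + t = n) :
    ∃ κ₂ < h, t + m * Q * ((Qi * (cl i + (D₂ - 1) * ((n / m) % Q))) % D₂ + κ₂ * D₂)
      = m * Q * ((n / m) / Q) := by
  obtain ⟨S, rfl⟩ := hms
  obtain ⟨ω, rfl⟩ := ht
  have hn : n / m = S + Q * ω := by
    rw [← he]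
    have : m * S + m * Q * ω = m * (S + Q * ω) := by ring
    rw [this, Nat.mul_div_cancel_left _ hm]
  rw [Nat.mul_div_cancel_left _ hm] at hcl
  rw [hn]
  set ξ := S + Q * ω with hξ
  set A := ξ / Q with hA
  set ρ₀ := ξ % Q with hρ₀
  have hdm : Q * A + ρ₀ = ξ := Nat.div_add_mod ξ Q
  have hρ₀Q : ρ₀ < Q := Nat.mod_lt _ hQ
  have hωA : ω ≤ A := by
    rw [hA, Nat.le_div_iff_mul_le hQ, mul_comm]
    omega
  obtain ⟨z, hz⟩ := Nat.exists_eq_add_of_le hωA
  have hQz : Q * z + ρ₀ = S := by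
    have : Q * A = Q * ω + Q * z := by rw [hz]; ring
    omega
  have hS : S < h * D₂ * Q := by
    have h1 : m * S < m * (h * D₂ * Q) := by
      calc m * S < h * (m * D₂ * Q) := hs
        _ = m * (h * D₂ * Q) := by ring
    exact lt_of_mul_lt_mul_left h1 (Nat.zero_le _)
  have hzlt : z < h * D₂ := by
    by_contra hc
    push Not at hc
    have h1 : Q * (h * D₂) ≤ Q * z := Nat.mul_le_mul_left _ hc
    have h2 : Q * (h * D₂) = h * D₂ * Q := by ring
    omega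
  have hzmod : z % D₂ = (Qi * (cl i + (D₂ - 1) * ρ₀)) % D₂ := by
    have hcast : ((Q * z + ρ₀ : ℕ) : ZMod D₂) = ((cl i : ℕ) : ZMod D₂) := by
      rw [hQz]
      exact (ZMod.natCast_eq_natCast_iff _ _ _).2 hcl
    have hQi' : ((Q : ZMod D₂)) * (Qi : ZMod D₂) = 1 := by
      have := (ZMod.natCast_eq_natCast_iff _ _ _).2 hQi
      push_cast at this
      exact this
    have hD1 : ((D₂ - 1 : ℕ) : ZMod D₂) = -1 := by
      rw [Nat.cast_sub hD₂]
      simp
    have hgoal : ((z : ℕ) : ZMod D₂) = ((Qi * (cl i + (D₂ - 1) * ρ₀) : ℕ) : ZMod D₂) := by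
      push_cast [hD1] at hcast ⊢
      have h4 : (z : ZMod D₂) = (Qi : ZMod D₂) * ((Q : ZMod D₂) * z) := by
        rw [← mul_assoc, mul_comm (Qi : ZMod D₂), hQi', one_mul]
      rw [h4]
      have h5 : (Q : ZMod D₂) * z = cl i - ρ₀ := by
        rw [← hcast]; ring
      rw [h5]
      ring
    exact (ZMod.natCast_eq_natCast_iff' _ _ _).1 hgoal
  refine ⟨z / D₂, ?_, ?_⟩
  · rw [Nat.div_lt_iff_lt_mul hD₂]
    exact hzlt
  · rw [← hzmod]
    have h6 : z % D₂ + z / D₂ * D₂ = z := by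
      rw [mul_comm (z / D₂)]
      exact Nat.mod_add_div z D₂
    rw [h6, hz]
    ring

/-- **The reduction, counting.**  `Λ` is the set of the configurations of all codes of the levels
`<= j`, `s` their total sum, `lab` their label. -/
theorem stack_card {Lam : Type*} [DecidableEq Lam] (Λ : Finset Lam) (s lab : Lam → ℕ)
    (U U' : Finset ℕ) {m Q D₂ h I R Cd n : ℕ} {cl : ℕ → ℕ} (hm : 0 < m) (hQ : 0 < Q)
    (hD₂ : 0 < D₂) {Qi : ℕ} (hQi : Q * Qi ≡ 1 [MOD D₂])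
    (hs : ∀ l ∈ Λ, s l < h * (m * D₂ * Q)) (hms : ∀ l ∈ Λ, m ∣ s l)
    (hcl : ∀ l ∈ Λ, s l / m ≡ cl (lab l) [MOD D₂]) (hlab : ∀ l ∈ Λ, lab l < I)
    (hU : ∀ u ∈ U, m * Q ∣ u) (hU' : ∀ u ∈ U', m * Q ∣ u)
    (hdec : ∀ i T, (Λ.filter (fun l => lab l = i ∧ s l = T)).card ≤ Cd)
    (hR : ∀ κ₂ < h, cN U U' I (m * Q) D₂ (fun i => Qi * (cl i + (D₂ - 1) * ((n / m) % Q))) κ₂
      (m * Q * ((n / m) / Q)) ≤ R) :
    ((Λ ×ˢ (U ×ˢ U')).filter (fun t => s t.1 + (t.2.1 + t.2.2) = n)).card ≤ Cd * (h * R) := by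
  classical
  set G : Finset (ℕ × (ℕ × ℕ)) := (range h).biUnion (fun κ₂ =>
    (range I ×ˢ (U ×ˢ U')).filter (fun t => t.2.1 + t.2.2 + (m * Q) *
      ((Qi * (cl t.1 + (D₂ - 1) * ((n / m) % Q))) % D₂ + κ₂ * D₂) = m * Q * ((n / m) / Q)))
    with hG
  have hGc : G.card ≤ h * R := by
    refine (card_biUnion_le).trans ?_
    refine (Finset.sum_le_card_nsmul _ _ R ?_).trans (by simp)
    intro κ₂ hκ
    exact hR κ₂ (mem_range.1 hκ)
  refine le_trans ?_ (Nat.mul_le_mul_left Cd hGc)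
  refine Finset.card_le_mul_card_image_of_maps_to
    (f := fun t : Lam × (ℕ × ℕ) => ((lab t.1, t.2) : ℕ × (ℕ × ℕ))) ?_ Cd ?_
  · rintro ⟨l, u, u'⟩ ht
    simp only [mem_filter, mem_product] at ht
    obtain ⟨⟨hl, hu, hu'⟩, he⟩ := ht
    obtain ⟨κ₂, hκ, hres⟩ := stack_target (m := m) (Q := Q) (D₂ := D₂) (h := h) (n := n)
      (s := s l) (t := u + u') (i := lab l) (cl := cl) hm hQ hD₂ hQi (hs l hl) (hms l hl)
      (hcl l hl) (dvd_add (hU u hu) (hU' u' hu')) he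
    rw [hG, mem_biUnion]
    refine ⟨κ₂, mem_range.2 hκ, ?_⟩
    simp only [mem_filter, mem_product, mem_range]
    exact ⟨⟨hlab l hl, hu, hu'⟩, hres⟩
  · rintro ⟨i, u, u'⟩ _
    refine le_trans (card_le_card_of_injOn (fun t : Lam × (ℕ × ℕ) => t.1) ?_ ?_)
      (hdec i (n - (u + u')))
    · rintro ⟨l, v, v'⟩ ht
      simp only [coe_filter, Set.mem_ofPred_eq, mem_filter, mem_product, Prod.mk.injEq] at ht
      obtain ⟨⟨⟨hl, hv, hv'⟩, he⟩, h1, rfl, rfl⟩ := ht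
      simp only [coe_filter, Set.mem_ofPred_eq]
      exact ⟨hl, h1, by omega⟩
    · rintro ⟨l, v, v'⟩ ht ⟨l', w, w'⟩ ht' hf
      simp only [coe_filter, Set.mem_ofPred_eq, Prod.mk.injEq] at ht ht' hf
      obtain ⟨_, _, rfl, rfl⟩ := ht
      obtain ⟨_, _, rfl, rfl⟩ := ht'
      rw [hf]

end Pool.Agent.Helper22.HW
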